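import Mathlib

set_option autoImplicit false

namespace Pool.Agent.Helper894

/-- Labels of the program. -/
inductive Lab
  | A | B | C | T | Z
  deriving DecidableEq

open Lab

instance : Fintype Lab := ⟨{A, B, C, T, Z}, by intro x; cases x <;> simp⟩

/-- One step of the program (partial, injective). -/
def F : Lab → ℤ → Option (Lab × ℤ)
  | A, q => if q % 75140 = 8381 then some (B, 13 * (q / 17) + (-1)) else none
  | B, q => if q % 4 = 0 then some (B, 17 * (q / 4) + 0)
      else if q % 2 = 1 then some (C, q) else none
  | C, q => if q % 17 = 0 then some (C, 4 * (q / 17) + 0)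
      else if (q + 1) % 13 = 0 ∧ (q + 1) % 5 ≠ 0 ∧ (q + 1) % 17 = 0 then
        some (T, q + 1)
      else if (q + 1) % 5 = 0 ∧ (q + 1) % 13 ≠ 0 ∧ (q + 1) % 17 = 0 then
        some (Z, q + 1)
      else none
  | T, q => if q % 13 = 0 then some (T, 5 * (q / 13) + 0)
      else if q % 5 = 0 ∧ q % 17 = 0 then some (B, q + (-1)) else none
  | Z, q => if q % 5 = 0 then
        (if q % 4913 = 0 then some (Z, 28561 * (q / 24565) + 0) else none)
      else if q % 17 = 0 ∧ q % 28561 = 0 then some (B, q + (-1)) else none

/-- The inverse step. -/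
def Fi : Lab → ℤ → Option (Lab × ℤ)
  | A, _ => none
  | B, q => if q % 17 = 0 then some (B, 4 * (q / 17) + 0)
      else if (q + 1) % 57460 = 6409 then some (A, 17 * (q / 13) + 17)
      else if (q + 1) % 5 = 0 ∧ (q + 1) % 13 ≠ 0 ∧ (q + 1) % 17 = 0 then
        some (T, q + 1)
      else if (q + 1) % 5 ≠ 0 ∧ (q + 1) % 17 = 0 ∧ (q + 1) % 28561 = 0 then
        some (Z, q + 1)
      else none
  | C, q => if q % 4 = 0 then some (C, 17 * (q / 4) + 0)
      else if q % 2 = 1 then some (B, q) else none
  | T, q => if q % 5 = 0 then some (T, 13 * (q / 5) + 0)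
      else if q % 13 = 0 ∧ q % 17 = 0 then some (C, q + (-1)) else none
  | Z, q => if q % 28561 = 0 then some (Z, 24565 * (q / 28561) + 0)
      else if q % 5 = 0 ∧ q % 13 ≠ 0 ∧ q % 17 = 0 then some (C, q + (-1)) else none

theorem some_pair {l : Lab} {a b : ℤ} (h : a = b) :
    (some (l, a) : Option (Lab × ℤ)) = some (l, b) := by rw [h]

theorem Fi_F (l l' : Lab) (q q' : ℤ) (h : F l q = some (l', q')) : Fi l' q' = some (l, q) := by
  cases l
  · simp only [F] at h
    split_ifs at h with h1
    simp only [Option.some.injEq, Prod.mk.injEq] at h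
    obtain ⟨rfl, rfl⟩ := h
    simp only [Fi]
    rw [if_neg (by omega), if_pos (by omega)]
    exact some_pair (by omega)
  · simp only [F] at h
    split_ifs at h with h1 h2
    · simp only [Option.some.injEq, Prod.mk.injEq] at h
      obtain ⟨rfl, rfl⟩ := h
      simp only [Fi]
      rw [if_pos (by omega)]
      exact some_pair (by omega)
    · simp only [Option.some.injEq, Prod.mk.injEq] at h
      obtain ⟨rfl, rfl⟩ := h
      simp only [Fi]
      rw [if_neg h1, if_pos h2]
  · simp only [F] at h
    split_ifs at h with h1 h2 h3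
    · simp only [Option.some.injEq, Prod.mk.injEq] at h
      obtain ⟨rfl, rfl⟩ := h
      simp only [Fi]
      rw [if_pos (by omega)]
      exact some_pair (by omega)
    · simp only [Option.some.injEq, Prod.mk.injEq] at h
      obtain ⟨rfl, rfl⟩ := h
      simp only [Fi]
      rw [if_neg h2.2.1, if_pos ⟨h2.1, h2.2.2⟩]
      exact some_pair (by omega)
    · simp only [Option.some.injEq, Prod.mk.injEq] at h
      obtain ⟨rfl, rfl⟩ := h
      simp only [Fi]
      have h4 : ¬ (q + 1) % 28561 = 0 := by
        have := h3.2.1
        clear h2 h3 h1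
        omega
      rw [if_neg h4, if_pos h3]
      exact some_pair (by omega)
  · simp only [F] at h
    split_ifs at h with h1 h2
    · simp only [Option.some.injEq, Prod.mk.injEq] at h
      obtain ⟨rfl, rfl⟩ := h
      simp only [Fi]
      rw [if_pos (by omega)]
      exact some_pair (by omega)
    · simp only [Option.some.injEq, Prod.mk.injEq] at h
      obtain ⟨rfl, rfl⟩ := h
      simp only [Fi, neg_add_cancel_right]
      rw [if_neg (by omega), if_neg (by omega), if_pos ⟨h2.1, h1, h2.2⟩]
  · simp only [F] at h
    split_ifs at h with h1 h2 h3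
    · simp only [Option.some.injEq, Prod.mk.injEq] at h
      obtain ⟨rfl, rfl⟩ := h
      simp only [Fi]
      rw [if_pos (by omega)]
      exact some_pair (by omega)
    · simp only [Option.some.injEq, Prod.mk.injEq] at h
      obtain ⟨rfl, rfl⟩ := h
      simp only [Fi, neg_add_cancel_right]
      have h4 : ¬ q % 57460 = 6409 := by
        have := h3.2
        clear h3
        omega
      rw [if_neg (by omega), if_neg h4, if_neg (fun h => h1 h.1), if_pos ⟨h1, h3⟩]

theorem F_Fi (l l' : Lab) (q q' : ℤ) (h : Fi l q = some (l', q')) : F l' q' = some (l, q) := by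
  cases l
  · simp [Fi] at h
  · simp only [Fi] at h
    split_ifs at h with h1 h2 h3 h4
    · simp only [Option.some.injEq, Prod.mk.injEq] at h
      obtain ⟨rfl, rfl⟩ := h
      simp only [F]
      rw [if_pos (by omega)]
      exact some_pair (by omega)
    · simp only [Option.some.injEq, Prod.mk.injEq] at h
      obtain ⟨rfl, rfl⟩ := h
      simp only [F]
      rw [if_pos (by omega)]
      exact some_pair (by omega)
    · simp only [Option.some.injEq, Prod.mk.injEq] at h
      obtain ⟨rfl, rfl⟩ := h
      simp only [F]
      rw [if_neg h3.2.1, if_pos ⟨h3.1, h3.2.2⟩]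
      exact some_pair (by omega)
    · simp only [Option.some.injEq, Prod.mk.injEq] at h
      obtain ⟨rfl, rfl⟩ := h
      simp only [F]
      rw [if_neg h4.1, if_pos h4.2]
      exact some_pair (by omega)
  · simp only [Fi] at h
    split_ifs at h with h1 h2
    · simp only [Option.some.injEq, Prod.mk.injEq] at h
      obtain ⟨rfl, rfl⟩ := h
      simp only [F]
      rw [if_pos (by omega)]
      exact some_pair (by omega)
    · simp only [Option.some.injEq, Prod.mk.injEq] at h
      obtain ⟨rfl, rfl⟩ := h
      simp only [F]
      rw [if_neg h1, if_pos h2]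
  · simp only [Fi] at h
    split_ifs at h with h1 h2
    · simp only [Option.some.injEq, Prod.mk.injEq] at h
      obtain ⟨rfl, rfl⟩ := h
      simp only [F]
      rw [if_pos (by omega)]
      exact some_pair (by omega)
    · simp only [Option.some.injEq, Prod.mk.injEq] at h
      obtain ⟨rfl, rfl⟩ := h
      simp only [F, neg_add_cancel_right]
      rw [if_neg (by omega), if_pos ⟨h2.1, h1, h2.2⟩]
  · simp only [Fi] at h
    split_ifs at h with h1 h2
    · simp only [Option.some.injEq, Prod.mk.injEq] at h
      obtain ⟨rfl, rfl⟩ := h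
      simp only [F]
      rw [if_pos (by omega), if_pos (by omega)]
      exact some_pair (by omega)
    · simp only [Option.some.injEq, Prod.mk.injEq] at h
      obtain ⟨rfl, rfl⟩ := h
      simp only [F, neg_add_cancel_right]
      rw [if_neg (by omega), if_neg (fun h => h2.2.1 h.1), if_pos h2]

end Pool.Agent.Helper894
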