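import Mathlib
import Pool.Agent.Helper894.Prog

set_option autoImplicit false

namespace Pool.Agent.Helper894

open Lab Relation

/-- One step as a relation. -/
def Stp (x y : Lab × ℤ) : Prop := F x.1 x.2 = some y

/-- acceptance at a halting state -/
def yes : Lab → ℤ → Bool
  | Z, q => decide (q % 5 ≠ 0 ∧ q % 28561 = 0 ∧ q % 17 = 1)
  | _, _ => false

/-- the run from `x` halts, and it accepts iff `p` -/
def Acc (x : Lab × ℤ) (p : Prop) : Prop :=
  ∃ y, ReflTransGen Stp x y ∧ F y.1 y.2 = none ∧ (yes y.1 y.2 = true ↔ p)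

theorem Acc.head {x y : Lab × ℤ} {p : Prop} (h : ReflTransGen Stp x y) (a : Acc y p) :
    Acc x p := by
  obtain ⟨z, h1, h2, h3⟩ := a
  exact ⟨z, h.trans h1, h2, h3⟩

theorem Acc.congr {x : Lab × ℤ} {p p' : Prop} (a : Acc x p) (h : p ↔ p') : Acc x p' := by
  obtain ⟨z, h1, h2, h3⟩ := a
  exact ⟨z, h1, h2, h3.trans h⟩

/-- even 2-adic valuation -/
def E (r : ℤ) : Prop := ∃ (k : ℕ) (ρ : ℤ), r = 4 ^ k * ρ ∧ ρ % 2 = 1
/-- odd 2-adic valuation -/
def O (r : ℤ) : Prop := ∃ (k : ℕ) (ρ : ℤ), r = 4 ^ k * ρ ∧ ρ % 4 = 2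

theorem not_E_O {r : ℤ} (h1 : E r) (h2 : O r) : False := by
  obtain ⟨k, ρ, e1, h1⟩ := h1
  obtain ⟨l, σ, e2, h2⟩ := h2
  rcases le_or_gt k l with h | h
  · obtain ⟨d, rfl⟩ := Nat.exists_eq_add_of_le h
    have h4 : (4 : ℤ) ^ k ≠ 0 := by positivity
    have : ρ = 4 ^ d * σ := by
      apply mul_left_cancel₀ h4
      rw [← e1, e2, pow_add]; ring
    have h2' : (2 : ℤ) ∣ σ := by omega
    have : (2 : ℤ) ∣ ρ := by rw [this]; exact Dvd.dvd.mul_left h2' _
    omega
  · obtain ⟨d, rfl⟩ := Nat.exists_eq_add_of_lt h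
    have h4 : (4 : ℤ) ^ l ≠ 0 := by positivity
    have : σ = 4 * (4 ^ d * ρ) := by
      apply mul_left_cancel₀ h4
      rw [← e2, e1, show l + d + 1 = l + (d + 1) by ring, pow_add, pow_succ]; ring
    omega

theorem E_or_O {r : ℤ} (h : r ≠ 0) : E r ∨ O r := by
  have key : ∀ n : ℕ, ∀ r : ℤ, r ≠ 0 → r.natAbs ≤ n → E r ∨ O r := by
    intro n
    induction n with
    | zero => intro r h1 h2; omega
    | succ n ih =>
      intro r h1 h2
      by_cases h4 : r % 4 = 0
      · obtain ⟨s, hs⟩ : (4 : ℤ) ∣ r := Int.dvd_of_emod_eq_zero h4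
        have hs0 : s ≠ 0 := by rintro rfl; simp at hs; exact h1 hs
        rcases ih s hs0 (by omega) with ⟨k, ρ, e, h⟩ | ⟨k, ρ, e, h⟩
        · left; exact ⟨k + 1, ρ, by rw [hs, e, pow_succ]; ring, h⟩
        · right; exact ⟨k + 1, ρ, by rw [hs, e, pow_succ]; ring, h⟩
      · by_cases h5 : r % 2 = 1
        · left; exact ⟨0, r, by simp, h5⟩
        · right; exact ⟨0, r, by simp, by omega⟩
  exact key _ r h le_rfl

theorem loopB (k : ℕ) : ∀ ρ : ℤ, ReflTransGen Stp (B, 4 ^ k * ρ) (B, 17 ^ k * ρ) := by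
  induction k with
  | zero => intro ρ; simpa using ReflTransGen.refl
  | succ k ih =>
    intro ρ
    have h1 : Stp (B, 4 ^ (k + 1) * ρ) (B, 4 ^ k * (17 * ρ)) := by
      have : (4 : ℤ) ^ (k + 1) * ρ = 4 * (4 ^ k * ρ) := by ring
      simp only [Stp, F, this]
      rw [if_pos (by omega)]
      apply some_pair
      rw [Int.mul_ediv_cancel_left _ (by norm_num)]; ring
    have h2 : (17 : ℤ) ^ (k + 1) * ρ = 17 ^ k * (17 * ρ) := by ring
    rw [h2]
    exact ReflTransGen.head h1 (ih _)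

theorem loopC (k : ℕ) : ∀ ρ : ℤ, ReflTransGen Stp (C, 17 ^ k * ρ) (C, 4 ^ k * ρ) := by
  induction k with
  | zero => intro ρ; simpa using ReflTransGen.refl
  | succ k ih =>
    intro ρ
    have h1 : Stp (C, 17 ^ (k + 1) * ρ) (C, 17 ^ k * (4 * ρ)) := by
      have : (17 : ℤ) ^ (k + 1) * ρ = 17 * (17 ^ k * ρ) := by ring
      simp only [Stp, F, this]
      rw [if_pos (by omega)]
      apply some_pair
      rw [Int.mul_ediv_cancel_left _ (by norm_num)]; ring
    have h2 : (4 : ℤ) ^ (k + 1) * ρ = 4 ^ k * (4 * ρ) := by ring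
    rw [h2]
    exact ReflTransGen.head h1 (ih _)

theorem loopT (k : ℕ) : ∀ ρ : ℤ, ReflTransGen Stp (T, 13 ^ k * ρ) (T, 5 ^ k * ρ) := by
  induction k with
  | zero => intro ρ; simpa using ReflTransGen.refl
  | succ k ih =>
    intro ρ
    have h1 : Stp (T, 13 ^ (k + 1) * ρ) (T, 13 ^ k * (5 * ρ)) := by
      have : (13 : ℤ) ^ (k + 1) * ρ = 13 * (13 ^ k * ρ) := by ring
      simp only [Stp, F, this]
      rw [if_pos (by omega)]
      apply some_pair
      rw [Int.mul_ediv_cancel_left _ (by norm_num)]; ring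
    have h2 : (5 : ℤ) ^ (k + 1) * ρ = 5 ^ k * (5 * ρ) := by ring
    rw [h2]
    exact ReflTransGen.head h1 (ih _)

theorem loopZ (k : ℕ) : ∀ ρ : ℤ,
    ReflTransGen Stp (Z, 24565 ^ k * ρ) (Z, 28561 ^ k * ρ) := by
  induction k with
  | zero => intro ρ; simpa using ReflTransGen.refl
  | succ k ih =>
    intro ρ
    have h1 : Stp (Z, 24565 ^ (k + 1) * ρ) (Z, 24565 ^ k * (28561 * ρ)) := by
      have : (24565 : ℤ) ^ (k + 1) * ρ = 24565 * (24565 ^ k * ρ) := by ring
      simp only [Stp, F, this]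
      rw [if_pos (by omega), if_pos (by omega)]
      apply some_pair
      rw [Int.mul_ediv_cancel_left _ (by norm_num)]; ring
    have h2 : (28561 : ℤ) ^ (k + 1) * ρ = 28561 ^ k * (28561 * ρ) := by ring
    rw [h2]
    exact ReflTransGen.head h1 (ih _)

theorem odd_pow17 (k : ℕ) (ρ : ℤ) (m : ℤ) (hm : m ∣ 16) : (17 ^ k * ρ) % m = ρ % m := by
  have h1 : (17 : ℤ) ^ k ≡ 1 ^ k [ZMOD m] := by
    apply Int.ModEq.pow
    exact (Int.modEq_iff_dvd.mpr (by simpa using (dvd_neg.mpr hm)))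
  have h2 : 17 ^ k * ρ ≡ ρ [ZMOD m] := by simpa using h1.mul_right ρ
  exact h2

theorem Acc_O {r : ℤ} (h : O r) : Acc (B, r) False := by
  obtain ⟨k, ρ, rfl, h⟩ := h
  refine ⟨(B, 17 ^ k * ρ), loopB k ρ, ?_, by simp [yes]⟩
  have h4 := odd_pow17 k ρ 4 (by norm_num)
  have h2 := odd_pow17 k ρ 2 (by norm_num)
  simp only [F]
  rw [if_neg (by omega), if_neg (by omega)]

theorem run_E {r : ℤ} (h : E r) : ReflTransGen Stp (B, r) (C, r) := by
  obtain ⟨k, ρ, rfl, h⟩ := h
  have h4 := odd_pow17 k ρ 4 (by norm_num)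
  have h2 := odd_pow17 k ρ 2 (by norm_num)
  refine (loopB k ρ).trans (ReflTransGen.head ?_ (loopC k ρ))
  simp only [Stp, F]
  rw [if_neg (by omega), if_pos (by omega)]


theorem Int_emod_pow_mul_ne {p : ℤ} (hp : Prime p) {c : ℤ} (hc : c % p ≠ 0) (k : ℕ) {v : ℤ}
    (hv : v % p ≠ 0) : (c ^ k * v) % p ≠ 0 := by
  intro h
  have h1 : p ∣ c ^ k * v := Int.dvd_of_emod_eq_zero h
  rcases hp.dvd_or_dvd h1 with h2 | h2
  · exact hc (Int.emod_eq_zero_of_dvd (hp.dvd_of_dvd_pow h2))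
  · exact hv (Int.emod_eq_zero_of_dvd h2)

theorem p5 : Prime (5 : ℤ) := by norm_num
theorem p13 : Prime (13 : ℤ) := by norm_num
theorem p17 : Prime (17 : ℤ) := by norm_num

/-- acceptance condition for the run started at `(B, 17^α 13^β v - 1)` -/
def Cond (α β : ℕ) (v : ℤ) : Prop :=
  ∃ t : ℕ, 1 ≤ t ∧ α + β = 4 ^ t * β ∧
    (∀ s < t, E (17 ^ (α + β - 4 ^ s * β) * 13 ^ (4 ^ s * β) * v - 1) ∧
      E (17 ^ (α + β - 4 ^ s * β) * 5 ^ (4 ^ s * β) * v - 1)) ∧
    (13 ^ (4 ^ t * β) * v) % 17 = 1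

theorem stage (α : ℕ) : ∀ (β : ℕ) (v : ℤ), 1 ≤ α → 1 ≤ β → v % 17 ≠ 0 → v % 5 ≠ 0 →
    v % 13 ≠ 0 → Acc (B, 17 ^ α * 13 ^ β * v - 1) (Cond α β v) := by
  induction α using Nat.strong_induction_on with
  | _ α ih =>
  intro β v hα hβ h17 h5 h13
  obtain ⟨α1, rfl⟩ : ∃ a, α = a + 1 := ⟨α - 1, by omega⟩
  obtain ⟨β1, rfl⟩ : ∃ b, β = b + 1 := ⟨β - 1, by omega⟩
  set X : ℤ := 17 ^ (α1 + 1) * 13 ^ (β1 + 1) * v with hX
  set Y : ℤ := 17 ^ (α1 + 1) * 5 ^ (β1 + 1) * v with hY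
  have hX17 : X % 17 = 0 := by
    rw [hX, pow_succ]; apply Int.emod_eq_zero_of_dvd
    exact ⟨17 ^ α1 * 13 ^ (β1 + 1) * v, by ring⟩
  have hX13 : X % 13 = 0 := by
    rw [hX, pow_succ]; apply Int.emod_eq_zero_of_dvd
    exact ⟨17 ^ (α1 + 1) * 13 ^ β1 * v, by ring⟩
  have hX5 : X % 5 ≠ 0 := by
    rw [hX, mul_assoc]
    exact Int_emod_pow_mul_ne p5 (by norm_num) _ (Int_emod_pow_mul_ne p5 (by norm_num) _ h5)
  have hY17 : Y % 17 = 0 := by
    rw [hY, pow_succ]; apply Int.emod_eq_zero_of_dvd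
    exact ⟨17 ^ α1 * 5 ^ (β1 + 1) * v, by ring⟩
  have hY5 : Y % 5 = 0 := by
    rw [hY, pow_succ 5]; apply Int.emod_eq_zero_of_dvd
    exact ⟨17 ^ (α1 + 1) * 5 ^ β1 * v, by ring⟩
  have hY13 : Y % 13 ≠ 0 := by
    rw [hY, mul_assoc]
    exact Int_emod_pow_mul_ne p13 (by norm_num) _ (Int_emod_pow_mul_ne p13 (by norm_num) _ h13)
  -- first probe
  rcases E_or_O (r := X - 1) (by omega) with hE | hO
  swap
  · refine (Acc_O hO).congr ⟨False.elim, ?_⟩
    rintro ⟨t, ht, _, h2, _⟩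
    have := (h2 0 (by omega)).1
    rw [pow_zero, one_mul, Nat.add_sub_cancel] at this
    exact not_E_O this hO
  refine Acc.head (run_E hE) ?_
  have s1 : Stp (C, X - 1) (T, X) := by
    simp only [Stp, F]
    rw [if_neg (by omega), if_pos ⟨by simpa using hX13, by simpa using hX5, by simpa using hX17⟩]
    exact some_pair (by omega)
  refine Acc.head (ReflTransGen.single s1) ?_
  have s2 : ReflTransGen Stp (T, X) (T, Y) := by
    have := loopT (β1 + 1) (17 ^ (α1 + 1) * v)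
    have e1 : (13 : ℤ) ^ (β1 + 1) * (17 ^ (α1 + 1) * v) = X := by rw [hX]; ring
    have e2 : (5 : ℤ) ^ (β1 + 1) * (17 ^ (α1 + 1) * v) = Y := by rw [hY]; ring
    rwa [e1, e2] at this
  refine Acc.head s2 ?_
  have s3 : Stp (T, Y) (B, Y - 1) := by
    simp only [Stp, F]
    rw [if_neg hY13, if_pos ⟨hY5, hY17⟩]
    exact some_pair (by omega)
  refine Acc.head (ReflTransGen.single s3) ?_
  rcases E_or_O (r := Y - 1) (by omega) with hE' | hO'
  swap
  · refine (Acc_O hO').congr ⟨False.elim, ?_⟩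
    rintro ⟨t, ht, _, h2, _⟩
    have := (h2 0 (by omega)).2
    rw [pow_zero, one_mul, Nat.add_sub_cancel] at this
    exact not_E_O this hO'
  refine Acc.head (run_E hE') ?_
  have s4 : Stp (C, Y - 1) (Z, Y) := by
    simp only [Stp, F, sub_add_cancel]
    rw [if_neg (by omega), if_neg (fun h => hY13 h.1), if_pos ⟨hY5, hY13, hY17⟩]
  refine Acc.head (ReflTransGen.single s4) ?_
  rcases Nat.lt_or_ge (α1 + 1) (3 * (β1 + 1)) with hlt | hge
  · -- not enough: halts without accepting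
    obtain ⟨i, a, hi, ha⟩ : ∃ i a, α1 + 1 = 3 * i + a ∧ a < 3 :=
      ⟨(α1 + 1) / 3, (α1 + 1) % 3, by omega, by omega⟩
    obtain ⟨b, hb⟩ : ∃ b, β1 + 1 = i + (b + 1) := ⟨β1 - i, by omega⟩
    have s5 : ReflTransGen Stp (Z, Y) (Z, 28561 ^ i * (5 * (5 ^ b * (17 ^ a * v)))) := by
      have := loopZ i (5 * (5 ^ b * (17 ^ a * v)))
      have e1 : (24565 : ℤ) ^ i * (5 * (5 ^ b * (17 ^ a * v))) = Y := by
        rw [hY, hi, hb, pow_add, pow_mul, pow_add 5 i, pow_succ 5 b,
          show (24565 : ℤ) = 17 ^ 3 * 5 by norm_num, mul_pow]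
        ring
      rwa [e1] at this
    refine ⟨_, s5, ?_, ?_⟩
    · have e5 : (28561 ^ i * (5 * (5 ^ b * (17 ^ a * v)))) % 5 = 0 :=
        Int.emod_eq_zero_of_dvd ⟨28561 ^ i * (5 ^ b * (17 ^ a * v)), by ring⟩
      have e6 : (28561 ^ i * (5 * (5 ^ b * (17 ^ a * v)))) % 4913 ≠ 0 := by
        intro h
        have h1 : (4913 : ℤ) ∣ 17 ^ a * (28561 ^ i * (5 ^ (b + 1) * v)) := by
          have := Int.dvd_of_emod_eq_zero h
          rw [pow_succ 5 b]
          have e : 28561 ^ i * (5 * (5 ^ b * (17 ^ a * v))) =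
            17 ^ a * (28561 ^ i * (5 ^ b * 5 * v)) := by ring
          rwa [e] at this
        have h2 : (17 : ℤ) ^ (a + 1) ∣ 17 ^ a * (28561 ^ i * (5 ^ (b + 1) * v)) := by
          refine dvd_trans ?_ h1
          have : (4913 : ℤ) = 17 ^ 3 := by norm_num
          rw [this]
          exact pow_dvd_pow _ (by omega)
        rw [pow_succ] at h2
        have h3 : (17 : ℤ) ∣ 28561 ^ i * (5 ^ (b + 1) * v) :=
          Int.dvd_of_mul_dvd_mul_left (by positivity) h2
        exact Int_emod_pow_mul_ne p17 (by norm_num) i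
          (Int_emod_pow_mul_ne p17 (by norm_num) (b + 1) h17) (Int.emod_eq_zero_of_dvd h3)
      simp only [F]
      rw [if_pos e5, if_neg e6]
    · have e5 : (28561 ^ i * (5 * (5 ^ b * (17 ^ a * v)))) % 5 = 0 :=
        Int.emod_eq_zero_of_dvd ⟨28561 ^ i * (5 ^ b * (17 ^ a * v)), by ring⟩
      simp only [yes, e5]
      constructor
      · simp
      · rintro ⟨t, ht, h1, _⟩
        exfalso
        obtain ⟨t', rfl⟩ : ∃ t', t = t' + 1 := ⟨t - 1, by omega⟩
        have : 1 ≤ 4 ^ t' := Nat.one_le_pow _ _ (by norm_num)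
        rw [pow_succ] at h1
        nlinarith
  · obtain ⟨a, ha⟩ := Nat.exists_eq_add_of_le hge
    set X' : ℤ := 17 ^ a * 13 ^ (4 * (β1 + 1)) * v with hX'
    have s5 : ReflTransGen Stp (Z, Y) (Z, X') := by
      have := loopZ (β1 + 1) (17 ^ a * v)
      have e1 : (24565 : ℤ) ^ (β1 + 1) * (17 ^ a * v) = Y := by
        rw [hY, ha, pow_add 17, pow_mul 17, show (24565 : ℤ) = 17 ^ 3 * 5 by norm_num, mul_pow]
        ring
      have e2 : (28561 : ℤ) ^ (β1 + 1) * (17 ^ a * v) = X' := by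
        rw [hX', pow_mul, show (28561 : ℤ) = 13 ^ 4 by norm_num]
        ring
      rwa [e1, e2] at this
    refine Acc.head s5 ?_
    have hX'5 : X' % 5 ≠ 0 := by
      rw [hX', mul_assoc]
      exact Int_emod_pow_mul_ne p5 (by norm_num) _ (Int_emod_pow_mul_ne p5 (by norm_num) _ h5)
    have hX'13 : X' % 28561 = 0 := by
      apply Int.emod_eq_zero_of_dvd
      rw [hX', pow_mul, pow_succ, show (28561 : ℤ) = 13 ^ 4 by norm_num]
      exact ⟨17 ^ a * (13 ^ 4) ^ β1 * v, by ring⟩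
    rcases Nat.eq_zero_or_pos a with rfl | hapos
    · -- the final state
      have hX'17 : X' % 17 ≠ 0 := by
        rw [hX', mul_assoc, pow_zero, one_mul]
        exact Int_emod_pow_mul_ne p17 (by norm_num) _ h17
      refine ⟨_, ReflTransGen.refl, ?_, ?_⟩
      · simp only [F]
        rw [if_neg hX'5, if_neg (fun h => hX'17 h.1)]
      · simp only [yes, decide_eq_true_eq]
        rw [pow_zero, one_mul] at hX'
        constructor
        · rintro ⟨_, _, h⟩
          refine ⟨1, le_rfl, by omega, ?_, ?_⟩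
          · intro s hs
            have : s = 0 := by omega
            subst this
            rw [pow_zero, one_mul, Nat.add_sub_cancel]
            exact ⟨hE, hE'⟩
          · rw [pow_one, ← hX']; exact h
        · rintro ⟨t, ht, h1, _, h3⟩
          have ht1 : t = 1 := by
            by_contra hne
            obtain ⟨t', rfl⟩ : ∃ t', t = t' + 2 := ⟨t - 2, by omega⟩
            have : 1 ≤ 4 ^ t' := Nat.one_le_pow _ _ (by norm_num)
            rw [pow_add] at h1
            nlinarith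
          subst ht1
          refine ⟨hX'5, hX'13, ?_⟩
          rw [pow_one, ← hX'] at h3
          exact h3
    · have s6 : Stp (Z, X') (B, X' - 1) := by
        have hX'17 : X' % 17 = 0 := by
          obtain ⟨a', rfl⟩ : ∃ a', a = a' + 1 := ⟨a - 1, by omega⟩
          rw [hX', pow_succ 17]; apply Int.emod_eq_zero_of_dvd
          exact ⟨17 ^ a' * 13 ^ (4 * (β1 + 1)) * v, by ring⟩
        simp only [Stp, F]
        rw [if_neg hX'5, if_pos ⟨hX'17, hX'13⟩]
        exact some_pair (by omega)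
      refine Acc.head (ReflTransGen.single s6) ?_
      refine (ih a (by omega) (4 * (β1 + 1)) v hapos (by omega) h17 h5 h13).congr ?_
      have hsum : a + 4 * (β1 + 1) = α1 + 1 + (β1 + 1) := by omega
      constructor
      · rintro ⟨t, ht, h1, h2, h3⟩
        refine ⟨t + 1, by omega, ?_, ?_, ?_⟩
        · rw [← hsum, h1, pow_succ]; ring
        · intro s hs
          rcases Nat.eq_zero_or_pos s with rfl | hs0
          · rw [pow_zero, one_mul, Nat.add_sub_cancel]
            exact ⟨hE, hE'⟩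
          · obtain ⟨s', rfl⟩ : ∃ s', s = s' + 1 := ⟨s - 1, by omega⟩
            have := h2 s' (by omega)
            rw [hsum, ← mul_assoc, ← pow_succ] at this
            exact this
        · rw [← mul_assoc, ← pow_succ] at h3
          exact h3
      · rintro ⟨t, ht, h1, h2, h3⟩
        obtain ⟨t', rfl⟩ : ∃ t', t = t' + 1 := ⟨t - 1, by omega⟩
        refine ⟨t', ?_, ?_, ?_, ?_⟩
        · rcases Nat.eq_zero_or_pos t' with rfl | h
          · rw [← hsum] at h1; omega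
          · exact h
        · rw [hsum, h1, pow_succ]; ring
        · intro s hs
          have := h2 (s + 1) (by omega)
          have e : 4 ^ (s + 1) * (β1 + 1) = 4 ^ s * (4 * (β1 + 1)) := by
            rw [pow_succ, Nat.mul_assoc]
          rw [e, ← hsum] at this
          exact this
        · rw [← mul_assoc, ← pow_succ]
          exact h3

end Pool.Agent.Helper894
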