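import Mathlib
import Pool.Agent.Helper894.Run

set_option autoImplicit false

namespace Pool.Agent.Helper894

theorem pow_c {c : ℤ} (hc : c % 8 = 5) (s : ℕ) :
    ∃ k : ℤ, c ^ (4 ^ s) = 1 + 4 ^ (s + 1) * k ∧ k % 2 = 1 := by
  induction s with
  | zero =>
    refine ⟨(c - 1) / 4, ?_, by omega⟩
    simp only [pow_zero, pow_one, zero_add]; omega
  | succ s ih =>
    obtain ⟨k, hk, hk2⟩ := ih
    refine ⟨k + 2 * (3 * 4 ^ s * k ^ 2 + 2 * (4 ^ (2 * s + 1)) * k ^ 3 + 2 * 4 ^ (3 * s + 1) * k ^ 4),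
      ?_, by omega⟩
    rw [pow_succ 4 s, pow_mul, hk]
    ring

theorem pow_17 (s m : ℕ) : ∃ k : ℤ, (17 : ℤ) ^ (4 ^ s * m) = 1 + 4 ^ (s + 2) * k := by
  induction s with
  | zero =>
    have h : (17 : ℤ) ^ m ≡ 1 ^ m [ZMOD 16] := Int.ModEq.pow m (by decide)
    rw [one_pow] at h
    obtain ⟨k, hk⟩ := (Int.modEq_iff_dvd.mp h.symm)
    refine ⟨k, ?_⟩
    simp only [pow_zero, one_mul, zero_add]
    linarith
  | succ s ih =>
    obtain ⟨k, hk⟩ := ih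
    refine ⟨k + 6 * 4 ^ (s + 1) * k ^ 2 + 4 * (4 ^ (2 * s + 3)) * k ^ 3 + 4 ^ (3 * s + 5) * k ^ 4, ?_⟩
    have : 4 ^ (s + 1) * m = (4 ^ s * m) * 4 := by ring
    rw [this, pow_mul, hk]
    ring

theorem pow_diff (s : ℕ) :
    ∃ k : ℤ, (13 : ℤ) ^ (4 ^ s) - 5 ^ (4 ^ s) = 8 * 4 ^ s * k ∧ k % 2 = 1 := by
  induction s with
  | zero => exact ⟨1, by norm_num, by norm_num⟩
  | succ s ih =>
    obtain ⟨k, hk, hk2⟩ := ih
    obtain ⟨a, ha, _⟩ := pow_c (c := 13) (by norm_num) s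
    obtain ⟨b, hb, _⟩ := pow_c (c := 5) (by norm_num) s
    have e : (13 : ℤ) ^ (4 ^ (s + 1)) - 5 ^ (4 ^ (s + 1)) =
        (13 ^ (4 ^ s) - 5 ^ (4 ^ s)) * ((13 ^ (4 ^ s) + 5 ^ (4 ^ s)) *
          ((13 ^ (4 ^ s)) ^ 2 + (5 ^ (4 ^ s)) ^ 2)) := by
      rw [pow_succ 4 s, pow_mul, pow_mul]; ring
    -- sums
    have h1 : (13 : ℤ) ^ (4 ^ s) + 5 ^ (4 ^ s) = 2 * (1 + 2 * (4 ^ s * (a + b))) := by
      rw [ha, hb]; ring
    have h2 : ((13 : ℤ) ^ (4 ^ s)) ^ 2 + (5 ^ (4 ^ s)) ^ 2 =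
        2 * (1 + 2 * (2 * 4 ^ s * (a + b) + 4 ^ (2 * s + 1) * (a ^ 2 + b ^ 2))) := by
      rw [ha, hb]; ring
    refine ⟨k * ((1 + 2 * (4 ^ s * (a + b))) *
      (1 + 2 * (2 * 4 ^ s * (a + b) + 4 ^ (2 * s + 1) * (a ^ 2 + b ^ 2)))), ?_, ?_⟩
    · rw [e, hk, h1, h2]; ring
    · have e1 : (1 + 2 * (4 ^ s * (a + b))) % 2 = 1 := by omega
      have e2 : (1 + 2 * (2 * 4 ^ s * (a + b) + 4 ^ (2 * s + 1) * (a ^ 2 + b ^ 2))) % 2 = 1 := by
        omega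
      exact Int.odd_iff.mp ((Int.odd_iff.mpr hk2).mul
        ((Int.odd_iff.mpr e1).mul (Int.odd_iff.mpr e2)))

/-- the multiplier `17^(4^n - 4^s) c^(4^s)` is `1 + 4^(s+1) k` with `k` odd -/
theorem mult {c : ℤ} (hc : c % 8 = 5) {n s : ℕ} (hs : s ≤ n) :
    ∃ k : ℤ, (17 : ℤ) ^ (4 ^ n - 4 ^ s) * c ^ (4 ^ s) = 1 + 4 ^ (s + 1) * k ∧ k % 2 = 1 := by
  obtain ⟨d, rfl⟩ := Nat.exists_eq_add_of_le hs
  obtain ⟨k, hk, hk2⟩ := pow_c hc s
  obtain ⟨l, hl⟩ := pow_17 s (4 ^ d - 1)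
  have e : 4 ^ (s + d) - 4 ^ s = 4 ^ s * (4 ^ d - 1) := by
    rw [Nat.mul_sub, pow_add, mul_one]
  refine ⟨k + 2 * (2 * (l + 4 ^ (s + 1) * l * k)), ?_, by omega⟩
  rw [e, hk, hl]; ring

theorem E_of {s : ℕ} {r k : ℤ} (h : r = 4 ^ s * k) (hk : k % 2 = 1) : E r := ⟨s, k, h, hk⟩

theorem O_of {s : ℕ} {r k : ℤ} (h : r = 2 * 4 ^ s * k) (hk : k % 2 = 1) : O r :=
  ⟨s, 2 * k, by rw [h]; ring, by omega⟩

/-- if the 2-adic valuation is even and at least `2s+1`, it is at least `2s+2` -/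
theorem E_dvd {s : ℕ} {r : ℤ} (h : E r) (h2 : (2 * 4 ^ s : ℤ) ∣ r) : (4 ^ (s + 1) : ℤ) ∣ r := by
  obtain ⟨k, hk⟩ := h2
  by_cases hk2 : k % 2 = 1
  · exact (not_E_O h (O_of hk hk2)).elim
  · obtain ⟨l, rfl⟩ : (2 : ℤ) ∣ k := by omega
    exact ⟨l, by rw [hk]; ring⟩

theorem arith {n : ℕ} {v : ℤ} (hv : v % 4 = 1) :
    (∀ s < n, E (17 ^ (4 ^ n - 4 ^ s) * 13 ^ (4 ^ s) * v - 1) ∧
      E (17 ^ (4 ^ n - 4 ^ s) * 5 ^ (4 ^ s) * v - 1)) ↔
    (1 ≤ n → (2 ^ (2 * n + 1) : ℤ) ∣ v - 1) := by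
  constructor
  · intro h hn
    have key : ∀ i : ℕ, 2 ≤ i → i ≤ 2 * n + 1 → (2 ^ i : ℤ) ∣ v - 1 := by
      intro i hi
      induction i, hi using Nat.le_induction with
      | base => intro _; norm_num; omega
      | succ i hi ih =>
        intro hle
        obtain ⟨w, hw⟩ := ih (by omega)
        by_cases hw2 : w % 2 = 1
        swap
        · obtain ⟨l, rfl⟩ : (2 : ℤ) ∣ w := by omega
          exact ⟨l, by rw [hw]; ring⟩
        exfalso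
        rcases Nat.even_or_odd' i with ⟨s, hs | hs⟩
        · -- i = 2 s, s = s' + 1
          obtain ⟨s', rfl⟩ : ∃ s', s = s' + 1 := ⟨s - 1, by omega⟩
          obtain ⟨h1, h2⟩ := h s' (by omega)
          obtain ⟨k, hk, hk2⟩ := mult (c := 13) (by norm_num) (n := n) (s := s') (by omega)
          obtain ⟨l, hl, hl2⟩ := mult (c := 5) (by norm_num) (n := n) (s := s') (by omega)
          have ev : v = 1 + 4 ^ (s' + 1) * w := by
            have : (2 : ℤ) ^ i = 4 ^ (s' + 1) := by rw [hs, pow_mul]; norm_num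
            rw [← this, ← hw]; ring
          have d1 : (2 * 4 ^ (s' + 1) : ℤ) ∣ 17 ^ (4 ^ n - 4 ^ s') * 13 ^ (4 ^ s') * v - 1 := by
            rw [hk, ev]
            obtain ⟨m, hm⟩ : (2 : ℤ) ∣ k + w := by omega
            refine ⟨m + 2 * 4 ^ s' * (k * w), ?_⟩
            have : (1 + 4 ^ (s' + 1) * k) * (1 + 4 ^ (s' + 1) * w) - 1 =
              4 ^ (s' + 1) * (k + w) + 4 ^ (s' + 1) * 4 ^ (s' + 1) * (k * w) := by ring
            rw [this, hm]; ring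
          have d2 : (2 * 4 ^ (s' + 1) : ℤ) ∣ 17 ^ (4 ^ n - 4 ^ s') * 5 ^ (4 ^ s') * v - 1 := by
            rw [hl, ev]
            obtain ⟨m, hm⟩ : (2 : ℤ) ∣ l + w := by omega
            refine ⟨m + 2 * 4 ^ s' * (l * w), ?_⟩
            have : (1 + 4 ^ (s' + 1) * l) * (1 + 4 ^ (s' + 1) * w) - 1 =
              4 ^ (s' + 1) * (l + w) + 4 ^ (s' + 1) * 4 ^ (s' + 1) * (l * w) := by ring
            rw [this, hm]; ring
          have e1 := E_dvd h1 d1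
          have e2 := E_dvd h2 d2
          have e3 := dvd_sub e1 e2
          obtain ⟨j, hj, hj2⟩ := pow_diff s'
          have e4 : (17 ^ (4 ^ n - 4 ^ s') * 13 ^ (4 ^ s') * v - 1) -
              (17 ^ (4 ^ n - 4 ^ s') * 5 ^ (4 ^ s') * v - 1) =
              (8 * 4 ^ s') * (17 ^ (4 ^ n - 4 ^ s') * v * j) := by
            have : (17 ^ (4 ^ n - 4 ^ s') * 13 ^ (4 ^ s') * v - 1) -
              (17 ^ (4 ^ n - 4 ^ s') * 5 ^ (4 ^ s') * v - 1) =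
              17 ^ (4 ^ n - 4 ^ s') * v * (13 ^ (4 ^ s') - 5 ^ (4 ^ s')) := by ring
            rw [this, hj]; ring
          rw [e4, show (4 : ℤ) ^ (s' + 1 + 1) = (8 * 4 ^ s') * 2 by ring] at e3
          have e5 : (2 : ℤ) ∣ 17 ^ (4 ^ n - 4 ^ s') * v * j :=
            Int.dvd_of_mul_dvd_mul_left (by positivity) e3
          have e6 : (17 ^ (4 ^ n - 4 ^ s') * v * j) % 2 = 1 := by
            have := odd_pow17 (4 ^ n - 4 ^ s') (v * j) 2 (by norm_num)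
            rw [mul_assoc, this, Int.mul_emod, hj2, show v % 2 = 1 by omega]
            norm_num
          omega
        · -- i = 2 s + 1
          obtain ⟨h1, _⟩ := h s (by omega)
          obtain ⟨k, hk, hk2⟩ := mult (c := 13) (by norm_num) (n := n) (s := s) (by omega)
          have ev : v = 1 + 2 * 4 ^ s * w := by
            have : (2 : ℤ) ^ i = 2 * 4 ^ s := by rw [hs, pow_succ, pow_mul]; norm_num; ring
            rw [← this, ← hw]; ring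
          refine not_E_O h1 (O_of (s := s) (k := w + 2 * k + 2 * (2 * 4 ^ s * (k * w))) ?_ (by omega))
          rw [hk, ev]; ring
    exact key (2 * n + 1) (by omega) le_rfl
  · intro h s hs
    obtain ⟨w, hw⟩ := h (by omega)
    obtain ⟨d, rfl⟩ := Nat.exists_eq_add_of_lt hs
    have ev : v = 1 + 4 ^ (s + 1) * (2 * (4 ^ d * w)) := by
      have : (2 : ℤ) ^ (2 * (s + d + 1) + 1) = 4 ^ (s + 1) * (2 * 4 ^ d) := by
        rw [pow_succ, pow_mul, show s + d + 1 = s + 1 + d by ring, pow_add]; norm_num; ring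
      have h2 : v = 1 + 2 ^ (2 * (s + d + 1) + 1) * w := by rw [← hw]; ring
      rw [h2, this]; ring
    constructor
    · obtain ⟨k, hk, hk2⟩ := mult (c := 13) (by norm_num) (n := s + d + 1) (s := s) (by omega)
      refine E_of (s := s + 1)
        (k := k + 2 * (4 ^ d * w + 4 ^ (s + 1) * k * (4 ^ d * w))) ?_ (by omega)
      rw [hk, ev]; ring
    · obtain ⟨k, hk, hk2⟩ := mult (c := 5) (by norm_num) (n := s + d + 1) (s := s) (by omega)
      refine E_of (s := s + 1)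
        (k := k + 2 * (4 ^ d * w + 4 ^ (s + 1) * k * (4 ^ d * w))) ?_ (by omega)
      rw [hk, ev]; ring

end Pool.Agent.Helper894
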