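import Mathlib
import Pool.Agent.Helper894.Collatz

set_option autoImplicit false

namespace Pool.Agent.Helper894.Collatz

open Finset

/-- the family `3^j (t+1) - 1` -/
def fam (j t : ℕ) : ℕ := 3 ^ j * (t + 1) - 1

theorem fam_zero (t : ℕ) : fam 0 t = t := by simp [fam]

theorem fam_add_one (j t : ℕ) : fam j t + 1 = 3 ^ j * (t + 1) := by
  unfold fam
  have : 0 < 3 ^ j * (t + 1) := by positivity
  omega

theorem fam_lt {j k t : ℕ} (h : t < 2 ^ k) : fam j t < 2 ^ k * 3 ^ j := by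
  have h1 := fam_add_one j t
  have h2 : 3 ^ j * (t + 1) ≤ 3 ^ j * 2 ^ k := Nat.mul_le_mul_left _ h
  rw [mul_comm (3 ^ j) (2 ^ k)] at h2
  omega

/-- a function of the residue modulo `2^k` has the same sum over the family -/
theorem sum_fam {M : Type} [AddCommMonoid M] (j k : ℕ) (f : ℕ → M)
    (hf : ∀ x c, f (x + 2 ^ k * c) = f x) :
    ∑ t ∈ range (2 ^ k), f (fam j t) = ∑ x ∈ range (2 ^ k), f x := by
  have hmod : ∀ x, f x = f (x % 2 ^ k) := by
    intro x
    conv_lhs => rw [← Nat.mod_add_div x (2 ^ k)]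
    exact hf _ _
  have hpos : 0 < 2 ^ k := by positivity
  have hinj : Set.InjOn (fun t => fam j t % 2 ^ k) (range (2 ^ k) : Set ℕ) := by
    intro t ht t' ht' h
    simp only [coe_range, Set.mem_Iio] at ht ht'
    have h1 : fam j t ≡ fam j t' [MOD 2 ^ k] := h
    have h2 : fam j t + 1 ≡ fam j t' + 1 [MOD 2 ^ k] := h1.add_right 1
    rw [fam_add_one, fam_add_one] at h2
    have hc : Nat.gcd (2 ^ k) (3 ^ j) = 1 := Nat.Coprime.pow _ _ (by norm_num)
    have h3 : t + 1 ≡ t' + 1 [MOD 2 ^ k] := Nat.ModEq.cancel_left_of_coprime hc h2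
    have h4 : t ≡ t' [MOD 2 ^ k] := Nat.ModEq.add_right_cancel' 1 h3
    exact Nat.ModEq.eq_of_lt_of_lt h4 ht ht'
  have himg : (range (2 ^ k)).image (fun t => fam j t % 2 ^ k) = range (2 ^ k) := by
    apply eq_of_subset_of_card_le
    · intro x hx
      simp only [mem_image, mem_range] at hx ⊢
      obtain ⟨t, _, rfl⟩ := hx
      exact Nat.mod_lt _ hpos
    · rw [card_image_of_injOn hinj]
  conv_rhs => rw [← himg]
  rw [sum_image hinj]
  apply sum_congr rfl
  intro t _
  exact hmod _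

theorem card_fam (j k : ℕ) (p : ℕ → Prop) [DecidablePred p]
    (hp : ∀ x c, p (x + 2 ^ k * c) ↔ p x) :
    ((range (2 ^ k)).filter (fun t => p (fam j t))).card = ((range (2 ^ k)).filter p).card := by
  rw [card_filter, card_filter]
  exact sum_fam j k (fun x => if p x then 1 else 0) (fun x c => by simp only [hp])

/-- few members of the family have a large error term -/
theorem card_er (j k C : ℕ) :
    4 * C * ((range (2 ^ k)).filter (fun t => C * 2 ^ k < er k (fam j t))).card ≤ k * 2 ^ k := by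
  have h1 : ((range (2 ^ k)).filter (fun t => C * 2 ^ k < er k (fam j t))).card * (C * 2 ^ k) ≤
      ∑ t ∈ range (2 ^ k), er k (fam j t) := by
    rw [← smul_eq_mul, ← sum_const]
    refine (sum_le_sum (fun t ht => ?_)).trans
      (sum_le_sum_of_subset (filter_subset (fun t => C * 2 ^ k < er k (fam j t)) _))
    simp only [mem_filter] at ht
    exact ht.2.le
  have h2 : ∑ t ∈ range (2 ^ k), er k (fam j t) = ∑ x ∈ range (2 ^ k), er k x :=
    sum_fam j k (er k) (fun x c => (period k x c).2.2)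
  have h3 := sum_er k
  have h4 : (4 : ℕ) ^ k = 2 ^ k * 2 ^ k := by rw [← mul_pow]; norm_num
  rw [h2] at h1
  rw [h4] at h3
  apply Nat.le_of_mul_le_mul_right (c := 2 ^ k) _ (by positivity)
  calc 4 * C * ((range (2 ^ k)).filter (fun t => C * 2 ^ k < er k (fam j t))).card * 2 ^ k
      = 4 * (((range (2 ^ k)).filter (fun t => C * 2 ^ k < er k (fam j t))).card * (C * 2 ^ k)) := by
        ring
    _ ≤ 4 * ∑ x ∈ range (2 ^ k), er k x := Nat.mul_le_mul_left _ h1
    _ = k * (2 ^ k * 2 ^ k) := h3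
    _ = k * 2 ^ k * 2 ^ k := by ring

theorem card_le_of_close {s : Finset ℕ} {n : ℕ} (h : ∀ x ∈ s, ∀ y ∈ s, x ≤ y + n) :
    s.card ≤ n + 1 := by
  rcases s.eq_empty_or_nonempty with rfl | hne
  · simp
  · have hsub : s ⊆ Icc (s.min' hne) (s.min' hne + n) := by
      intro x hx
      rw [mem_Icc]
      exact ⟨min'_le _ _ hx, h x hx _ (min'_mem _ _)⟩
    have := card_le_card hsub
    rw [Nat.card_Icc] at this
    omega

/-- the multiplicity bound -/
theorem card_fiber (j k C a y : ℕ) :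
    ((range (2 ^ k)).filter (fun t => od k (fam j t) = a ∧ er k (fam j t) ≤ C * 2 ^ k ∧
      T^[k] (fam j t) = y)).card ≤ C * 2 ^ k / 3 ^ (a + j) + 1 := by
  apply card_le_of_close
  intro t ht t' ht'
  simp only [mem_filter] at ht ht'
  obtain ⟨-, ha, he, hy⟩ := ht
  obtain ⟨-, ha', he', hy'⟩ := ht'
  have h1 := iter_eq k (fam j t)
  have h2 := iter_eq k (fam j t')
  rw [ha, hy] at h1
  rw [ha', hy'] at h2
  have f1 := fam_add_one j t
  have f2 := fam_add_one j t'
  have h3 : 3 ^ (a + j) * (t + 1) + er k (fam j t) = 2 ^ k * y + 3 ^ a := by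
    rw [h1, pow_add, mul_assoc, ← f1]; ring
  have h4 : 3 ^ (a + j) * (t' + 1) + er k (fam j t') = 2 ^ k * y + 3 ^ a := by
    rw [h2, pow_add, mul_assoc, ← f2]; ring
  have h5 : 3 ^ (a + j) * t ≤ 3 ^ (a + j) * t' + C * 2 ^ k := by
    have e1 : 3 ^ (a + j) * (t + 1) = 3 ^ (a + j) * t + 3 ^ (a + j) := by ring
    have e2 : 3 ^ (a + j) * (t' + 1) = 3 ^ (a + j) * t' + 3 ^ (a + j) := by ring
    omega
  by_contra hcon
  push Not at hcon
  obtain ⟨d, hd⟩ := Nat.exists_eq_add_of_lt hcon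
  have h6 : C * 2 ^ k < 3 ^ (a + j) * (C * 2 ^ k / 3 ^ (a + j) + 1) :=
    Nat.lt_mul_div_succ _ (by positivity)
  have h7 : 3 ^ (a + j) * t = 3 ^ (a + j) * t' + 3 ^ (a + j) * (C * 2 ^ k / 3 ^ (a + j) + 1) +
      3 ^ (a + j) * d := by
    rw [hd]; ring
  have h8 : 0 ≤ 3 ^ (a + j) * d := Nat.zero_le _
  omega

/-- counting members of the family with exceptional image -/
theorem card_block (j k C a : ℕ) (E : ℕ → Prop) [DecidablePred E] :
    ((range (2 ^ k)).filter (fun t => od k (fam j t) = a ∧ er k (fam j t) ≤ C * 2 ^ k ∧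
      E (T^[k] (fam j t)))).card ≤
      (C * 2 ^ k / 3 ^ (a + j) + 1) * ((range (3 ^ (a + j))).filter E).card := by
  apply card_le_mul_card_image_of_maps_to (f := fun t => T^[k] (fam j t))
  · intro t ht
    simp only [mem_filter, mem_range] at ht ⊢
    refine ⟨?_, ht.2.2.2⟩
    have := lt_pow k _ _ (fam_lt (j := j) ht.1)
    rw [ht.2.1, ← pow_add] at this
    exact this
  · intro y _
    refine (card_le_card ?_).trans (card_fiber j k C a y)
    intro t ht
    simp only [mem_filter] at ht ⊢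
    exact ⟨ht.1.1, ht.1.2.1, ht.1.2.2.1, ht.2⟩

end Pool.Agent.Helper894.Collatz
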