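import Mathlib

set_option autoImplicit false

namespace Pool.Agent.Helper894

/-- `Q` holds on every residue class modulo some positive `M`. -/
def Pw (Q : (ℤ → Prop) → Prop) : Prop :=
  ∃ M : ℕ, 0 < M ∧ ∀ r : ℤ, Q (fun q => q % (M : ℤ) = r % (M : ℤ))

def Anti (Q : (ℤ → Prop) → Prop) : Prop :=
  ∀ S S' : ℤ → Prop, (∀ q, S q → S' q) → Q S' → Q S

theorem emod_of_emod_mul {q r : ℤ} {M N : ℕ} (h : q % ((M * N : ℕ) : ℤ) = r % ((M * N : ℕ) : ℤ)) :
    q % (M : ℤ) = r % (M : ℤ) := by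
  have h1 : q ≡ r [ZMOD ((M * N : ℕ) : ℤ)] := h
  push_cast at h1
  exact h1.of_mul_right _

theorem emod_of_dvd {q r : ℤ} {M N : ℕ} (hd : M ∣ N) (h : q % (N : ℤ) = r % (N : ℤ)) :
    q % (M : ℤ) = r % (M : ℤ) := by
  obtain ⟨K, rfl⟩ := hd
  exact emod_of_emod_mul h

theorem Pw.and {Q1 Q2 Q3 : (ℤ → Prop) → Prop} (h1 : Pw Q1) (h2 : Pw Q2) (m1 : Anti Q1)
    (m2 : Anti Q2) (h : ∀ S, Q1 S → Q2 S → Q3 S) : Pw Q3 := by
  obtain ⟨M, hM, h1⟩ := h1
  obtain ⟨N, hN, h2⟩ := h2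
  refine ⟨M * N, Nat.mul_pos hM hN, fun r => h _ ?_ ?_⟩
  · exact m1 _ _ (fun q hq => emod_of_emod_mul hq) (h1 r)
  · refine m2 _ _ (fun q hq => emod_of_dvd (Dvd.intro_left M rfl) hq) (h2 r)

theorem Pw.mono {Q1 Q3 : (ℤ → Prop) → Prop} (h1 : Pw Q1) (h : ∀ S, Q1 S → Q3 S) : Pw Q3 := by
  obtain ⟨M, hM, h1⟩ := h1
  exact ⟨M, hM, fun r => h _ (h1 r)⟩

def Qper (p : ℤ → Prop) (S : ℤ → Prop) : Prop := (∀ q, S q → p q) ∨ (∀ q, S q → ¬ p q)

def Qpa {L : Type} (f : ℤ → L × ℤ) (S : ℤ → Prop) : Prop :=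
  ∃ (l : L) (a b : ℚ), ∀ q : ℤ, S q → (f q).1 = l ∧ ((f q).2 : ℚ) = a * q + b

def Qpoa {L : Type} (f : ℤ → Option (L × ℤ)) (S : ℤ → Prop) : Prop :=
  (∀ q, S q → f q = none) ∨
    ∃ (l : L) (a b : ℚ), ∀ q : ℤ, S q → ∃ z : ℤ, f q = some (l, z) ∧ (z : ℚ) = a * q + b

theorem anti_per (p : ℤ → Prop) : Anti (Qper p) := by
  intro S S' h hQ
  rcases hQ with h1 | h1
  · exact Or.inl fun q hq => h1 q (h q hq)
  · exact Or.inr fun q hq => h1 q (h q hq)

theorem anti_pa {L : Type} (f : ℤ → L × ℤ) : Anti (Qpa f) := by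
  rintro S S' h ⟨l, a, b, h1⟩
  exact ⟨l, a, b, fun q hq => h1 q (h q hq)⟩

theorem anti_poa {L : Type} (f : ℤ → Option (L × ℤ)) : Anti (Qpoa f) := by
  rintro S S' h (h1 | ⟨l, a, b, h1⟩)
  · exact Or.inl fun q hq => h1 q (h q hq)
  · exact Or.inr ⟨l, a, b, fun q hq => h1 q (h q hq)⟩

/-- periodic conditions -/
def Per (p : ℤ → Prop) : Prop := Pw (Qper p)
/-- piecewise affine maps -/
def PA {L : Type} (f : ℤ → L × ℤ) : Prop := Pw (Qpa f)
/-- piecewise affine partial maps -/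
def POA {L : Type} (f : ℤ → Option (L × ℤ)) : Prop := Pw (Qpoa f)

theorem per_mod (s k c : ℤ) (hk : 0 < k) : Per (fun q => (q + s) % k = c) := by
  obtain ⟨n, rfl⟩ := Int.eq_ofNat_of_zero_le hk.le
  refine ⟨n, by exact_mod_cast hk, fun r => ?_⟩
  have key : ∀ q : ℤ, q % (n : ℤ) = r % (n : ℤ) → (q + s) % (n : ℤ) = (r + s) % (n : ℤ) := by
    intro q hq
    have h1 : q ≡ r [ZMOD (n : ℤ)] := hq
    exact h1.add_right s
  by_cases h : (r + s) % (n : ℤ) = c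
  · exact Or.inl fun q hq => (key q hq).trans h
  · exact Or.inr fun q hq h' => h ((key q hq).symm.trans h')

theorem per_mod0 (k c : ℤ) (hk : 0 < k) : Per (fun q => q % k = c) := by
  have := per_mod 0 k c hk
  simpa using this

theorem Per.not {p : ℤ → Prop} (h : Per p) : Per (fun q => ¬ p q) :=
  Pw.mono h fun S hS => by
    rcases hS with h1 | h1
    · exact Or.inr fun q hq h' => h' (h1 q hq)
    · exact Or.inl h1

theorem Per.and {p p' : ℤ → Prop} (h : Per p) (h' : Per p') : Per (fun q => p q ∧ p' q) :=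
  Pw.and h h' (anti_per _) (anti_per _) fun S hS hS' => by
    rcases hS with h1 | h1
    · rcases hS' with h2 | h2
      · exact Or.inl fun q hq => ⟨h1 q hq, h2 q hq⟩
      · exact Or.inr fun q hq h => h2 q hq h.2
    · exact Or.inr fun q hq h => h1 q hq h.1

theorem per_false : Per (fun _ => False) := ⟨1, one_pos, fun _ => Or.inr fun _ _ h => h⟩

theorem POA.none {L : Type} : POA (fun _ : ℤ => (Option.none : Option (L × ℤ))) :=
  ⟨1, one_pos, fun _ => Or.inl fun _ _ => rfl⟩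

theorem POA.some {L : Type} {f : ℤ → ℤ} (l : L) (h : PA (fun q => (l, f q))) :
    POA (fun q : ℤ => (Option.some (l, f q) : Option (L × ℤ))) :=
  Pw.mono h fun S hS => by
    obtain ⟨_, a, b, h1⟩ := hS
    exact Or.inr ⟨l, a, b, fun q hq => ⟨f q, rfl, (h1 q hq).2⟩⟩

theorem PA.div {L : Type} (l : L) (c d e : ℤ) (hd : 0 < d) :
    PA (fun q : ℤ => (l, c * (q / d) + e)) := by
  obtain ⟨n, rfl⟩ := Int.eq_ofNat_of_zero_le hd.le
  have hn : 0 < n := by exact_mod_cast hd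
  refine ⟨n, hn, fun r => ⟨l, (c : ℚ) / n, - (c : ℚ) * (r % (n : ℤ) : ℤ) / n + e, ?_⟩⟩
  intro q hq
  refine ⟨rfl, ?_⟩
  have h1 := Int.emod_add_mul_ediv q (n : ℤ)
  have h2 : ((q % (n : ℤ) : ℤ) : ℚ) + n * ((q / (n : ℤ) : ℤ) : ℚ) = q := by exact_mod_cast h1
  rw [hq] at h2
  have hn' : (n : ℚ) ≠ 0 := by positivity
  push_cast
  field_simp
  rw [← h2]
  ring

theorem PA.add {L : Type} (l : L) (e : ℤ) : PA (fun q : ℤ => (l, q + e)) := by
  have := PA.div l 1 1 e one_pos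
  simpa using this

theorem PA.id {L : Type} (l : L) : PA (fun q : ℤ => (l, q)) := by
  have := PA.div l 1 1 0 one_pos
  simpa using this

theorem PA.neg {L : Type} (l : L) (e : ℤ) : PA (fun q : ℤ => (l, -q + e)) := by
  have := PA.div l (-1) 1 e one_pos
  simpa using this

theorem PA.ite {L : Type} {p : ℤ → Prop} [DecidablePred p] {f g : ℤ → L × ℤ} (hp : Per p)
    (hf : PA f) (hg : PA g) : PA (fun q => if p q then f q else g q) := by
  have h1 : Pw (fun S => Qpa f S ∧ Qpa g S) :=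
    Pw.and hf hg (anti_pa f) (anti_pa g) fun S a b => ⟨a, b⟩
  refine Pw.and hp h1 (anti_per p)
    (fun S S' h hQ => ⟨anti_pa f S S' h hQ.1, anti_pa g S S' h hQ.2⟩) fun S hS hS' => ?_
  rcases hS with h2 | h2
  · obtain ⟨l, a, b, h3⟩ := hS'.1
    refine ⟨l, a, b, fun q hq => ?_⟩
    simp only [if_pos (h2 q hq)]
    exact h3 q hq
  · obtain ⟨l, a, b, h3⟩ := hS'.2
    refine ⟨l, a, b, fun q hq => ?_⟩
    simp only [if_neg (h2 q hq)]
    exact h3 q hq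

theorem POA.ite {L : Type} {p : ℤ → Prop} [DecidablePred p] {f g : ℤ → Option (L × ℤ)}
    (hp : Per p) (hf : POA f) (hg : POA g) : POA (fun q => if p q then f q else g q) := by
  have h1 : Pw (fun S => Qpoa f S ∧ Qpoa g S) :=
    Pw.and hf hg (anti_poa f) (anti_poa g) fun S a b => ⟨a, b⟩
  refine Pw.and hp h1 (anti_per p)
    (fun S S' h hQ => ⟨anti_poa f S S' h hQ.1, anti_poa g S S' h hQ.2⟩) fun S hS hS' => ?_
  rcases hS with h2 | h2
  · rcases hS'.1 with h3 | ⟨l, a, b, h3⟩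
    · exact Or.inl fun q hq => by beta_reduce; rw [if_pos (h2 q hq)]; exact h3 q hq
    · exact Or.inr ⟨l, a, b, fun q hq => by
        obtain ⟨z, h4, h5⟩ := h3 q hq
        exact ⟨z, by beta_reduce; rw [if_pos (h2 q hq)]; exact h4, h5⟩⟩
  · rcases hS'.2 with h3 | ⟨l, a, b, h3⟩
    · exact Or.inl fun q hq => by beta_reduce; rw [if_neg (h2 q hq)]; exact h3 q hq
    · exact Or.inr ⟨l, a, b, fun q hq => by
        obtain ⟨z, h4, h5⟩ := h3 q hq
        exact ⟨z, by beta_reduce; rw [if_neg (h2 q hq)]; exact h4, h5⟩⟩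

theorem POA.elim {L L' : Type} {f : ℤ → Option (L × ℤ)} {g : ℤ → L' × ℤ} (φ : L → L')
    (hf : POA f) (hg : PA g) : PA (fun q => (f q).elim (g q) (fun y => (φ y.1, y.2))) :=
  Pw.and hf hg (anti_poa f) (anti_pa g) fun S hS hS' => by
    rcases hS with h1 | ⟨l, a, b, h1⟩
    · obtain ⟨l, a, b, h2⟩ := hS'
      exact ⟨l, a, b, fun q hq => by beta_reduce; rw [h1 q hq]; exact h2 q hq⟩
    · exact ⟨φ l, a, b, fun q hq => by
        obtain ⟨z, h3, h4⟩ := h1 q hq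
        beta_reduce; rw [h3]; exact ⟨rfl, h4⟩⟩

/-- Conjugating a labelled piecewise affine map into a map of `ℤ` gives a map which is affine
with rational coefficients on every residue class modulo some `m > 0`. -/
theorem conj_rcwa {L : Type} [Fintype L] {m : ℕ} (hm : 0 < m) (e : L ≃ Fin m)
    (H : L × ℤ → L × ℤ) (hH : ∀ l, PA (fun q => H (l, q))) (g : ℤ → ℤ)
    (hg : ∀ l q, g (m * q + (e l : ℕ)) = m * (H (l, q)).2 + (e (H (l, q)).1 : ℕ)) :
    ∃ (M : ℕ) (a b : ℕ → ℚ), 0 < M ∧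
      ∀ n : ℤ, (g n : ℚ) = a (n % (M : ℤ)).toNat * (n : ℚ) + b (n % (M : ℤ)).toNat := by
  choose K hK hK2 using hH
  set P : ℕ := ∏ l, K l with hP
  have hPpos : 0 < P := Finset.prod_pos fun l _ => hK l
  have hdvd : ∀ l, K l ∣ P := fun l => Finset.dvd_prod_of_mem _ (Finset.mem_univ l)
  have key : ∀ ρ : ℕ, ∃ a b : ℚ, ∀ n : ℤ, n % ((m * P : ℕ) : ℤ) = ρ → (g n : ℚ) = a * n + b := by
    intro ρ
    set l : L := e.symm ⟨ρ % m, Nat.mod_lt _ hm⟩ with hl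
    have hel : (e l : ℕ) = ρ % m := by rw [hl]; simp
    obtain ⟨l', a, b, h1⟩ := hK2 l ((ρ / m : ℕ) : ℤ)
    refine ⟨a, -a * (ρ % m : ℕ) + m * b + (e l' : ℕ), fun n hn => ?_⟩
    obtain ⟨t, ht⟩ : ∃ t, n = ρ + (m * P : ℕ) * t := ⟨n / ((m * P : ℕ) : ℤ), by
      rw [← hn]; exact (Int.emod_add_mul_ediv n _).symm⟩
    set q : ℤ := (ρ / m : ℕ) + P * t with hq
    have hnq : n = m * q + (e l : ℕ) := by
      have h2 : (m : ℤ) * ((ρ / m : ℕ) : ℤ) + ((ρ % m : ℕ) : ℤ) = ρ := by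
        exact_mod_cast Nat.div_add_mod ρ m
      rw [ht, hel, hq]
      push_cast at h2 ⊢
      linarith
    have hqc : q % ((K l : ℕ) : ℤ) = ((ρ / m : ℕ) : ℤ) % ((K l : ℕ) : ℤ) := by
      obtain ⟨u, hu⟩ := hdvd l
      rw [hq, hu]
      push_cast
      rw [mul_assoc, Int.add_mul_emod_self_left]
    obtain ⟨h3, h4⟩ := h1 q hqc
    have h5 := hg l q
    rw [← hnq] at h5
    simp only at h3 h4
    rw [h5, h3]
    push_cast
    rw [h4]
    have h6 : (n : ℚ) = m * q + (ρ % m : ℕ) := by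
      rw [hnq, hel]
      generalize ρ % m = c
      push_cast; ring
    rw [h6]
    generalize ρ % m = c
    push_cast
    ring
  choose a b hab using key
  refine ⟨m * P, a, b, Nat.mul_pos hm hPpos, fun n => ?_⟩
  apply hab
  rw [Int.toNat_of_nonneg]
  exact Int.emod_nonneg _ (by positivity)

end Pool.Agent.Helper894
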