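import Mathlib
import Pool.Agent.Helper894.Arith

set_option autoImplicit false

namespace Pool.Agent.Helper894

open Lab Relation

/-- The special positions: `17^(4^n) (1 + 2^(2n+1) 1105 t)`. -/
def Pp (q : ℤ) : Prop :=
  ∃ n : ℕ, 1 ≤ n ∧ ∃ t : ℤ, q = 17 ^ (4 ^ n) * (1 + 2 ^ (2 * n + 1) * 1105 * t)

theorem pow17_mod (n : ℕ) (hn : 1 ≤ n) : (17 : ℤ) ^ (4 ^ n) % 75140 = 8381 := by
  induction n, hn using Nat.le_induction with
  | base => norm_num
  | succ n hn ih =>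
    have h : (17 : ℤ) ^ (4 ^ n) ≡ 8381 [ZMOD 75140] := ih
    have h2 := h.pow 4
    rw [← pow_mul, ← pow_succ] at h2
    have h3 : (8381 : ℤ) ^ 4 ≡ 8381 [ZMOD 75140] := by decide
    exact (h2.trans h3)

theorem pow17_dvd (n : ℕ) (hn : 1 ≤ n) : (83521 : ℤ) ∣ 17 ^ (4 ^ n) := by
  have : (83521 : ℤ) = 17 ^ 4 := by norm_num
  rw [this]
  apply pow_dvd_pow
  calc 4 = 4 ^ 1 := by norm_num
    _ ≤ 4 ^ n := Nat.pow_le_pow_right (by norm_num) hn

theorem Pp_mod {q : ℤ} (h : Pp q) : q % 75140 = 8381 := by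
  obtain ⟨n, hn, t, rfl⟩ := h
  obtain ⟨w, hw⟩ := pow17_dvd n hn
  have h1 := pow17_mod n hn
  obtain ⟨m, rfl⟩ : ∃ m, n = m + 1 := ⟨n - 1, by omega⟩
  have : (17 : ℤ) ^ (4 ^ (m + 1)) * (1 + 2 ^ (2 * (m + 1) + 1) * 1105 * t) =
      17 ^ (4 ^ (m + 1)) + 75140 * (w * 289 * 2 * 17 * 4 ^ m * t) := by
    rw [mul_add, mul_one]
    congr 1
    rw [hw, show 2 * (m + 1) + 1 = 2 * m + 3 by ring, pow_add, pow_mul]
    norm_num; ring
  rw [this, Int.add_mul_emod_self_left, h1]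

theorem pow13_mod17 (n : ℕ) (hn : 1 ≤ n) (v : ℤ) : (13 ^ (4 ^ n) * v) % 17 = v % 17 := by
  obtain ⟨m, rfl⟩ : ∃ m, n = m + 1 := ⟨n - 1, by omega⟩
  have h : (13 : ℤ) ^ (4 ^ (m + 1)) ≡ 1 [ZMOD 17] := by
    rw [pow_succ' 4 m, pow_mul]
    have : (13 : ℤ) ^ 4 ≡ 1 [ZMOD 17] := by decide
    simpa using this.pow (4 ^ m)
  have h2 : 13 ^ (4 ^ (m + 1)) * v ≡ v [ZMOD 17] := by simpa using h.mul_right v
  exact h2

theorem aux5 {x p : ℤ} (hp : p % 75140 = 8381) (hx : (p * x) % 75140 = 8381) : x % 5 = 1 := by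
  have h5 : p % 5 = 1 := by omega
  have h6 : (p * x) % 5 = 1 := by omega
  rw [Int.mul_emod, h5] at h6
  omega

theorem aux13 {x p : ℤ} (hp : p % 75140 = 8381) (hx : (p * x) % 75140 = 8381) :
    x % 13 = 1 := by
  have h5 : p % 13 = 9 := by omega
  have h6 : (p * x) % 13 = 9 := by omega
  rw [Int.mul_emod, h5] at h6
  clear hp hx h5
  have h7 : 0 ≤ x % 13 := Int.emod_nonneg _ (by norm_num)
  have h8 : x % 13 < 13 := Int.emod_lt_of_pos _ (by norm_num)
  generalize x % 13 = y at *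
  interval_cases y <;> simp at h6 ⊢

theorem aux1105 {x : ℤ} (h1 : x % 5 = 1) (h2 : x % 13 = 1) (h3 : x % 17 = 1) :
    (1105 : ℤ) ∣ x - 1 := by omega

theorem test (q : ℤ) : Acc (A, q) (Pp q) := by
  by_cases hq : q % 75140 = 8381
  swap
  · refine ⟨_, ReflTransGen.refl, ?_, ?_⟩
    · simp only [F]; rw [if_neg hq]
    · simp only [yes]
      exact ⟨by simp, fun h => (hq (Pp_mod h)).elim⟩
  have hq0 : q ≠ 0 := by omega
  obtain ⟨v, h1, hv⟩ := (Int.finiteMultiplicity_iff.mpr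
      ⟨by norm_num, hq0⟩ : FiniteMultiplicity (17 : ℤ) q).exists_eq_pow_mul_and_not_dvd
  generalize multiplicity (17 : ℤ) q = j at h1
  have hv17 : v % 17 ≠ 0 := fun h => hv (Int.dvd_of_emod_eq_zero h)
  have hj : 2 ≤ j := by
    by_contra hlt
    have hj2 : j = 0 ∨ j = 1 := by omega
    rcases hj2 with rfl | rfl
    · rw [pow_zero, one_mul] at h1; omega
    · rw [pow_one] at h1; omega
  obtain ⟨i, rfl⟩ : ∃ i, j = i + 2 := ⟨j - 2, by omega⟩
  have hq5 : q % 5 = 1 := by omega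
  have hq13 : q % 13 = 9 := by omega
  have hq4 : q % 4 = 1 := by omega
  have hv5 : v % 5 ≠ 0 := by
    intro h
    have : (5 : ℤ) ∣ q := by rw [h1]; exact Dvd.dvd.mul_left (Int.dvd_of_emod_eq_zero h) _
    omega
  have hv13 : v % 13 ≠ 0 := by
    intro h
    have : (13 : ℤ) ∣ q := by rw [h1]; exact Dvd.dvd.mul_left (Int.dvd_of_emod_eq_zero h) _
    omega
  have hv4 : v % 4 = 1 := by
    have := odd_pow17 (i + 2) v 4 (by norm_num)
    rw [← h1] at this; omega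
  have st : Stp (A, q) (B, 17 ^ (i + 1) * 13 ^ 1 * v - 1) := by
    have e : q = 17 * (17 ^ (i + 1) * v) := by rw [h1]; ring
    simp only [Stp, F]
    rw [if_pos hq]
    apply some_pair
    rw [e, Int.mul_ediv_cancel_left _ (by norm_num)]; ring
  refine Acc.head (ReflTransGen.single st) ((stage (i + 1) 1 v (by omega) le_rfl hv17 hv5
    hv13).congr ?_)
  constructor
  · rintro ⟨t, ht, e1, e2, e3⟩
    rw [mul_one] at e1
    have h3 : (2 ^ (2 * t + 1) : ℤ) ∣ v - 1 := by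
      refine (arith (n := t) hv4).mp ?_ ht
      intro s hs
      have := e2 s hs
      rw [mul_one, e1] at this
      exact this
    rw [mul_one, pow13_mod17 t ht v] at e3
    have e4 : i + 2 = 4 ^ t := by omega
    rw [e4] at h1
    have hm := pow17_mod t ht
    have hv5' : v % 5 = 1 := aux5 hm (by rw [← h1]; exact hq)
    have hv13' : v % 13 = 1 := aux13 hm (by rw [← h1]; exact hq)
    have d1 : (1105 : ℤ) ∣ v - 1 := aux1105 hv5' hv13' e3
    have cop : IsCoprime ((2 : ℤ) ^ (2 * t + 1)) 1105 := by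
      apply IsCoprime.pow_left
      exact ⟨-552, 1, by norm_num⟩
    obtain ⟨w, hw⟩ := cop.mul_dvd h3 d1
    refine ⟨t, ht, w, ?_⟩
    rw [h1, ← hw]; ring
  · rintro ⟨n, hn, t, ht⟩
    -- uniqueness of the 17-part
    set w : ℤ := 1 + 2 ^ (2 * n + 1) * 1105 * t with hw
    have hw17 : w % 17 = 1 := by
      have : w = 1 + 17 * (65 * (2 ^ (2 * n + 1) * t)) := by rw [hw]; ring
      rw [this]; omega
    have hw' : ¬ (17 : ℤ) ∣ w := by omega
    have key : i + 2 = 4 ^ n ∧ v = w := by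
      rw [h1] at ht
      rcases lt_trichotomy (i + 2) (4 ^ n) with hlt | heq | hgt
      · exfalso
        obtain ⟨d, hd⟩ := Nat.exists_eq_add_of_lt hlt
        rw [hd, show i + 2 + d + 1 = (i + 2) + (d + 1) by ring, pow_add 17 (i + 2) (d + 1),
          mul_assoc] at ht
        have := mul_left_cancel₀ (show (17 : ℤ) ^ (i + 2) ≠ 0 by positivity) ht
        apply hv
        rw [this, pow_succ]
        exact ⟨17 ^ d * w, by ring⟩
      · rw [heq] at ht
        exact ⟨heq, mul_left_cancel₀ (show (17 : ℤ) ^ (4 ^ n) ≠ 0 by positivity) ht⟩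
      · exfalso
        obtain ⟨d, hd⟩ := Nat.exists_eq_add_of_lt hgt
        rw [hd, show 4 ^ n + d + 1 = 4 ^ n + (d + 1) by ring, pow_add 17 (4 ^ n) (d + 1),
          mul_assoc] at ht
        have := mul_left_cancel₀ (show (17 : ℤ) ^ (4 ^ n) ≠ 0 by positivity) ht
        apply hw'
        rw [← this, pow_succ]
        exact ⟨17 ^ d * v, by ring⟩
    obtain ⟨hin, hvw⟩ := key
    refine ⟨n, hn, by rw [mul_one]; omega, ?_, ?_⟩
    · intro s hs
      have := (arith (n := n) hv4).mpr (fun _ => ⟨1105 * t, by rw [hvw, hw]; ring⟩) s hs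
      rw [mul_one, show i + 1 + 1 = 4 ^ n by omega]
      exact this
    · rw [mul_one, pow13_mod17 n hn v, hvw, hw17]

end Pool.Agent.Helper894
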