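import Mathlib
import Pool.Agent.Helper894.Rcwa
import Pool.Agent.Helper894.Test

set_option autoImplicit false

namespace Pool.Agent.Helper894

open Lab Relation

/-- label set of the permutation -/
abbrev Lb := (Bool × Bool × Bool × Lab) ⊕ Fin 360

/-- the permutation, on labelled integers -/
def G : Lb × ℤ → Lb × ℤ
  | (Sum.inl (c, false, lam, l), q) =>
      (F l q).elim (Sum.inl (c, true, xor lam (yes l q), l), q)
        (fun y => (Sum.inl (c, false, lam, y.1), y.2))
  | (Sum.inl (c, true, lam, l), q) =>
      (Fi l q).elim
        (if l ≠ A then (Sum.inl (c, false, lam, l), q) else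
          if c = false then (Sum.inl (true, false, lam, A), -q + 0)
          else if lam = false then (Sum.inl (false, false, false, A), -q + 1)
          else (Sum.inr 0, -q + 0))
        (fun y => (Sum.inl (c, true, lam, y.1), y.2))
  | (Sum.inr i, q) =>
      if h : i.val + 1 < 360 then (Sum.inr ⟨i.val + 1, h⟩, q)
      else (Sum.inl (false, false, true, A), q + 1)

/-- its inverse -/
def Gi : Lb × ℤ → Lb × ℤ
  | (Sum.inl (c, false, lam, l), q) =>
      (Fi l q).elim
        (if l ≠ A then (Sum.inl (c, true, lam, l), q) else
          if c = true then (Sum.inl (false, true, lam, A), -q)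
          else if lam = false then (Sum.inl (true, true, false, A), -q + 1)
          else (Sum.inr 359, q - 1))
        (fun y => (Sum.inl (c, false, lam, y.1), y.2))
  | (Sum.inl (c, true, lam, l), q) =>
      (F l q).elim (Sum.inl (c, false, xor lam (yes l q), l), q)
        (fun y => (Sum.inl (c, true, lam, y.1), y.2))
  | (Sum.inr i, q) =>
      if i.val = 0 then (Sum.inl (true, true, true, A), -q)
      else (Sum.inr ⟨i.val - 1, by omega⟩, q)

theorem Fi_none_of_A (q : ℤ) : Fi A q = none := rfl

theorem Gi_G (x : Lb × ℤ) : Gi (G x) = x := by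
  obtain ⟨⟨c, d, lam, l⟩ | i, q⟩ := x
  · cases d
    · cases h : F l q with
      | none => simp [G, Gi, h]
      | some y =>
        have h2 := Fi_F l y.1 q y.2 h
        simp [G, Gi, h, h2]
    · cases h : Fi l q with
      | none =>
        by_cases hl : l = A
        · subst hl
          cases c
          · simp [G, Gi, Fi]
          · cases lam
            · simp [G, Gi, Fi]
            · simp [G, Gi, Fi]
        · simp [G, Gi, h, hl]
      | some y =>
        have h2 := F_Fi l y.1 q y.2 h
        simp [G, Gi, h, h2]
  · by_cases h : i.val + 1 < 360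
    · simp [G, Gi, h]
    · have hi : i = 359 := by
        apply Fin.ext
        have := i.isLt
        show i.val = 359
        omega
      subst hi
      simp [G, Gi, Fi]

theorem G_Gi (x : Lb × ℤ) : G (Gi x) = x := by
  obtain ⟨⟨c, d, lam, l⟩ | i, q⟩ := x
  · cases d
    · cases h : Fi l q with
      | none =>
        by_cases hl : l = A
        · subst hl
          cases c
          · cases lam
            · simp [G, Gi, Fi]
            · simp [G, Gi, h]
          · simp [G, Gi, Fi]
        · simp [G, Gi, h, hl]
      | some y =>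
        have h2 := F_Fi l y.1 q y.2 h
        simp [G, Gi, h, h2]
    · cases h : F l q with
      | none => simp [G, Gi, h]
      | some y =>
        have h2 := Fi_F l y.1 q y.2 h
        simp [G, Gi, h, h2]
  · by_cases h : i.val = 0
    · have hi : i = 0 := Fin.ext h
      subst hi
      simp [G, Gi, Fi]
    · have h3 := i.isLt
      have h4 : i.val - 1 + 1 = i.val := by omega
      simp [G, Gi, h, h4]

/-- the permutation as an equivalence -/
def Gp : Equiv.Perm (Lb × ℤ) := ⟨G, Gi, Gi_G, G_Gi⟩

theorem poa_F (l : Lab) : POA (F l) := by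
  cases l
  · exact POA.ite (per_mod0 _ _ (by norm_num)) (POA.some _ (PA.div _ _ _ _ (by norm_num))) POA.none
  · exact POA.ite (per_mod0 _ _ (by norm_num)) (POA.some _ (PA.div _ _ _ _ (by norm_num)))
      (POA.ite (per_mod0 _ _ (by norm_num)) (POA.some _ (PA.id _)) POA.none)
  · exact POA.ite (per_mod0 _ _ (by norm_num)) (POA.some _ (PA.div _ _ _ _ (by norm_num)))
      (POA.ite ((per_mod _ _ _ (by norm_num)).and ((per_mod _ _ _ (by norm_num)).not.and
        (per_mod _ _ _ (by norm_num)))) (POA.some _ (PA.add _ _))
      (POA.ite ((per_mod _ _ _ (by norm_num)).and ((per_mod _ _ _ (by norm_num)).not.and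
        (per_mod _ _ _ (by norm_num)))) (POA.some _ (PA.add _ _)) POA.none))
  · exact POA.ite (per_mod0 _ _ (by norm_num)) (POA.some _ (PA.div _ _ _ _ (by norm_num)))
      (POA.ite ((per_mod0 _ _ (by norm_num)).and
        (per_mod0 _ _ (by norm_num))) (POA.some _ (PA.add _ _)) POA.none)
  · exact POA.ite (per_mod0 _ _ (by norm_num))
      (POA.ite (per_mod0 _ _ (by norm_num)) (POA.some _ (PA.div _ _ _ _ (by norm_num))) POA.none)
      (POA.ite ((per_mod0 _ _ (by norm_num)).and
        (per_mod0 _ _ (by norm_num))) (POA.some _ (PA.add _ _)) POA.none)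

theorem poa_Fi (l : Lab) : POA (Fi l) := by
  cases l
  · exact POA.none
  · exact POA.ite (per_mod0 _ _ (by norm_num)) (POA.some _ (PA.div _ _ _ _ (by norm_num)))
      (POA.ite (per_mod _ _ _ (by norm_num)) (POA.some _ (PA.div _ _ _ _ (by norm_num)))
      (POA.ite ((per_mod _ _ _ (by norm_num)).and ((per_mod _ _ _ (by norm_num)).not.and
        (per_mod _ _ _ (by norm_num)))) (POA.some _ (PA.add _ _))
      (POA.ite ((per_mod _ _ _ (by norm_num)).not.and ((per_mod _ _ _ (by norm_num)).and
        (per_mod _ _ _ (by norm_num)))) (POA.some _ (PA.add _ _)) POA.none)))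
  · exact POA.ite (per_mod0 _ _ (by norm_num)) (POA.some _ (PA.div _ _ _ _ (by norm_num)))
      (POA.ite (per_mod0 _ _ (by norm_num)) (POA.some _ (PA.id _)) POA.none)
  · exact POA.ite (per_mod0 _ _ (by norm_num)) (POA.some _ (PA.div _ _ _ _ (by norm_num)))
      (POA.ite ((per_mod0 _ _ (by norm_num)).and
        (per_mod0 _ _ (by norm_num))) (POA.some _ (PA.add _ _)) POA.none)
  · exact POA.ite (per_mod0 _ _ (by norm_num)) (POA.some _ (PA.div _ _ _ _ (by norm_num)))
      (POA.ite ((per_mod0 _ _ (by norm_num)).and ((per_mod0 _ _ (by norm_num)).not.and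
        (per_mod0 _ _ (by norm_num)))) (POA.some _ (PA.add _ _)) POA.none)

theorem per_yes (l : Lab) : Per (fun q => yes l q = true) := by
  cases l
  · exact Pw.mono per_false (fun S h => by simpa [yes] using h)
  · exact Pw.mono per_false (fun S h => by simpa [yes] using h)
  · exact Pw.mono per_false (fun S h => by simpa [yes] using h)
  · exact Pw.mono per_false (fun S h => by simpa [yes] using h)
  · have h := ((per_mod0 5 0 (by norm_num)).not.and ((per_mod0 28561 0 (by norm_num)).and
        (per_mod0 17 1 (by norm_num))))
    refine Pw.mono h (fun S h => ?_)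
    simpa [yes, Qper] using h

theorem pa_G (l : Lb) : PA (fun q => G (l, q)) := by
  obtain ⟨c, d, lam, l⟩ | i := l
  · cases d
    · have h1 : PA (fun q : ℤ => ((Sum.inl (c, true, xor lam (yes l q), l), q) : Lb × ℤ)) := by
        have h2 := PA.ite (per_yes l)
          (PA.id (Sum.inl (c, true, !lam, l) : Lb)) (PA.id (Sum.inl (c, true, lam, l) : Lb))
        convert h2 using 2 with q
        by_cases h : yes l q = true
        · rw [if_pos h, h]; simp
        · rw [if_neg h, Bool.not_eq_true _ |>.mp h]; simp
      exact POA.elim (fun l' => (Sum.inl (c, false, lam, l') : Lb)) (poa_F l) h1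
    · refine POA.elim (fun l' => (Sum.inl (c, true, lam, l') : Lb)) (poa_Fi l) ?_
      by_cases hl : l = A
      · simp only [hl, ne_eq, not_true_eq_false, if_false]
        cases c
        · exact PA.neg _ _
        · cases lam
          · exact PA.neg _ _
          · exact PA.neg _ _
      · simp only [ne_eq, hl, not_false_eq_true, if_true]
        exact PA.id _
  · by_cases h : i.val + 1 < 360
    · simp only [G, h, dif_pos]
      exact PA.id _
    · simp only [G, h, dif_neg, not_false_eq_true]
      exact PA.add _ _

end Pool.Agent.Helper894
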