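import Mathlib
import Pool.Agent.Helper894.Perm

set_option autoImplicit false

namespace Pool.Agent.Helper894

open Lab Relation

/-- main road states -/
def main (lam : Bool) (q : ℤ) : Lb × ℤ := (Sum.inl (false, false, lam, A), q)

def IsMain (x : Lb × ℤ) : Prop := ∃ lam q, x = main lam q

/-- positive-time path avoiding main states strictly in between -/
def Av (x y : Lb × ℤ) : Prop :=
  ∃ k : ℕ, G^[k + 1] x = y ∧ ∀ i < k, ¬ IsMain (G^[i + 1] x)

theorem Av.base (x : Lb × ℤ) : Av x (G x) := ⟨0, rfl, fun i hi => (Nat.not_lt_zero i hi).elim⟩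

theorem Av.base' {x y : Lb × ℤ} (h : G x = y) : Av x y := h ▸ Av.base x

theorem Av.trans {x y z : Lb × ℤ} (h1 : Av x y) (hy : ¬ IsMain y) (h2 : Av y z) : Av x z := by
  obtain ⟨k, hk, hk'⟩ := h1
  obtain ⟨l, hl, hl'⟩ := h2
  refine ⟨k + 1 + l, ?_, ?_⟩
  · rw [show k + 1 + l + 1 = (l + 1) + (k + 1) by ring, Function.iterate_add_apply, hk, hl]
  · intro i hi
    rcases lt_trichotomy i k with h | h | h
    · exact hk' i h
    · subst h; rw [hk]; exact hy
    · obtain ⟨j, rfl⟩ := Nat.exists_eq_add_of_lt h
      rw [show k + j + 1 + 1 = (j + 1) + (k + 1) by ring, Function.iterate_add_apply, hk]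
      exact hl' j (by omega)

def lift (c d lam : Bool) (x : Lab × ℤ) : Lb × ℤ := (Sum.inl (c, d, lam, x.1), x.2)

theorem F_ne_A {l : Lab} {q : ℤ} {y : Lab × ℤ} (h : F l q = some y) : y.1 ≠ A := by
  cases l <;> simp only [F] at h <;> split_ifs at h <;>
    simp only [Option.some.injEq] at h <;> subst h <;> simp

theorem G_fwd {c lam : Bool} {x y : Lab × ℤ} (h : F x.1 x.2 = some y) :
    G (lift c false lam x) = lift c false lam y := by
  simp [G, lift, h]

theorem G_halt {c lam : Bool} {x : Lab × ℤ} (h : F x.1 x.2 = none) :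
    G (lift c false lam x) = lift c true (xor lam (yes x.1 x.2)) x := by
  simp [G, lift, h]

theorem G_bwd {c lam : Bool} {x y : Lab × ℤ} (h : F x.1 x.2 = some y) :
    G (lift c true lam y) = lift c true lam x := by
  have := Fi_F x.1 y.1 x.2 y.2 h
  simp [G, lift, this]

theorem not_main_of_ne_A {c d lam : Bool} {x : Lab × ℤ} (h : x.1 ≠ A) :
    ¬ IsMain (lift c d lam x) := by
  rintro ⟨lam', q, h1⟩
  simp only [lift, main, Prod.mk.injEq, Sum.inl.injEq] at h1
  exact h h1.1.2.2.2

theorem not_main_bwd {c lam : Bool} {x : Lab × ℤ} : ¬ IsMain (lift c true lam x) := by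
  rintro ⟨lam', q, h1⟩
  simp [lift, main] at h1

theorem not_main_copy {d lam : Bool} {x : Lab × ℤ} : ¬ IsMain (lift true d lam x) := by
  rintro ⟨lam', q, h1⟩
  simp [lift, main] at h1

theorem not_main_inr {i : Fin 360} {q : ℤ} : ¬ IsMain ((Sum.inr i, q) : Lb × ℤ) := by
  rintro ⟨lam', q, h1⟩
  simp [main] at h1

theorem fwd_run {c lam : Bool} {x y : Lab × ℤ} (h : ReflTransGen Stp x y) :
    x = y ∨ (y.1 ≠ A ∧ Av (lift c false lam x) (lift c false lam y)) := by
  induction h with
  | refl => exact Or.inl rfl
  | @tail y z h1 h2 ih =>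
    right
    refine ⟨F_ne_A h2, ?_⟩
    have hb : Av (lift c false lam y) (lift c false lam z) := Av.base' (G_fwd h2)
    rcases ih with rfl | ⟨h3, h4⟩
    · exact hb
    · exact h4.trans (not_main_of_ne_A h3) hb

theorem bwd_run {c lam : Bool} {x y : Lab × ℤ} (h : ReflTransGen Stp x y) :
    x = y ∨ Av (lift c true lam y) (lift c true lam x) := by
  induction h with
  | refl => exact Or.inl rfl
  | @tail y z h1 h2 ih =>
    right
    have hb : Av (lift c true lam z) (lift c true lam y) := Av.base' (G_bwd h2)
    rcases ih with rfl | h4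
    · exact hb
    · exact hb.trans not_main_bwd h4

/-- the test path -/
theorem test_path (c lam : Bool) (q : ℤ) [Decidable (Pp q)] :
    Av (lift c false lam (A, q)) (lift c true (xor lam (decide (Pp q))) (A, q)) := by
  obtain ⟨y, h1, h2, h3⟩ := test q
  have hy : yes y.1 y.2 = decide (Pp q) := by
    by_cases hp : Pp q
    · rw [h3.mpr hp]; simp [hp]
    · have : yes y.1 y.2 ≠ true := fun h => hp (h3.mp h)
      rw [Bool.not_eq_true _ |>.mp this]; simp [hp]
  rw [← hy]
  have mid : Av (lift c false lam y) (lift c true (xor lam (yes y.1 y.2)) y) :=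
    Av.base' (G_halt h2)
  have part1 : Av (lift c false lam (A, q)) (lift c true (xor lam (yes y.1 y.2)) y) := by
    rcases fwd_run (c := c) (lam := lam) h1 with rfl | ⟨h4, h5⟩
    · exact mid
    · exact h5.trans (not_main_of_ne_A h4) mid
  rcases bwd_run (c := c) (lam := xor lam (yes y.1 y.2)) h1 with rfl | h6
  · exact part1
  · exact part1.trans not_main_bwd h6

open Classical in
/-- whether the lane is switched at position `q` -/
noncomputable def flip (q : ℤ) : Bool := xor (decide (Pp q)) (decide (Pp (-q)))

theorem flip_neg (q : ℤ) : flip (-q) = flip q := by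
  unfold flip
  rw [neg_neg, Bool.xor_comm]

theorem heavy_iter (q : ℤ) (i : ℕ) (hi : i < 360) :
    G^[i] ((Sum.inr 0, q) : Lb × ℤ) = (Sum.inr ⟨i, hi⟩, q) := by
  induction i with
  | zero => rfl
  | succ i ih =>
    rw [Function.iterate_succ_apply', ih (by omega)]
    simp [G, hi]

theorem heavy_path (q : ℤ) : Av ((Sum.inr 0, q) : Lb × ℤ) (main true (q + 1)) := by
  refine ⟨359, ?_, ?_⟩
  · rw [Function.iterate_succ_apply', heavy_iter q 359 (by omega)]
    simp [G, main]
  · intro i hi
    rw [heavy_iter q (i + 1) (by omega)]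
    exact not_main_inr

/-- up to the exit -/
theorem seg1 (lam : Bool) (q : ℤ) :
    Av (main lam q) (lift true true (xor lam (flip q)) (A, -q)) := by
  classical
  have h1 := test_path false lam q
  have h2 : Av (lift false true (xor lam (decide (Pp q))) (A, q))
      (lift true false (xor lam (decide (Pp q))) (A, -q)) := by
    apply Av.base'
    simp [G, lift, Fi]
  have h3 := test_path true (xor lam (decide (Pp q))) (-q)
  have h4 := (h1.trans not_main_bwd h2).trans not_main_copy h3
  have e : xor lam (flip q) = xor (xor lam (decide (Pp q))) (decide (Pp (-q))) := by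
    unfold flip
    rw [Bool.xor_assoc]
  rw [e]
  exact h4

theorem exit_true (q : ℤ) : G (lift true true true (A, -q)) = (Sum.inr 0, q) := by
  simp [G, lift, Fi]

theorem exit_false (q : ℤ) : G (lift true true false (A, -q)) = main false (q + 1) := by
  simp [G, lift, Fi, main]

/-- the first return map on the main road -/
theorem seg (lam : Bool) (q : ℤ) : Av (main lam q) (main (xor lam (flip q)) (q + 1)) := by
  have h := seg1 lam q
  cases hx : xor lam (flip q) with
  | false =>
    rw [hx] at h
    exact h.trans not_main_bwd (Av.base' (exit_false q))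
  | true =>
    rw [hx] at h
    exact (h.trans not_main_bwd (Av.base' (exit_true q))).trans not_main_inr (heavy_path q)

theorem main_inj {lam lam' : Bool} {q q' : ℤ} (h : main lam q = main lam' q') :
    lam = lam' ∧ q = q' := by
  simpa [main] using h

/-- main positions strictly increase along forward orbits -/
theorem main_increase (i : ℕ) : ∀ (lam lam' : Bool) (q q' : ℤ),
    G^[i] (main lam q) = main lam' q' → i = 0 ∨ q < q' := by
  induction i using Nat.strong_induction_on with
  | _ i ih =>
  intro lam lam' q q' h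
  rcases Nat.eq_zero_or_pos i with h0 | hpos
  · exact Or.inl h0
  right
  obtain ⟨k, hk, hk'⟩ := seg lam q
  rcases lt_trichotomy i (k + 1) with hlt | heq | hgt
  · exfalso
    have := hk' (i - 1) (by omega)
    rw [show i - 1 + 1 = i by omega, h] at this
    exact this ⟨lam', q', rfl⟩
  · rw [heq, hk] at h
    have := (main_inj h).2
    omega
  · obtain ⟨j, rfl⟩ := Nat.exists_eq_add_of_lt hgt
    rw [show k + 1 + j + 1 = (j + 1) + (k + 1) by ring, Function.iterate_add_apply, hk] at h
    rcases ih (j + 1) (by omega) _ _ _ _ h with h1 | h1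
    · omega
    · omega

theorem Gp_iter (i : ℕ) (x : Lb × ℤ) : (Gp ^ i) x = G^[i] x := by
  rw [Equiv.Perm.iterate_eq_pow Gp i |>.symm]
  rfl

theorem same_of_iter {x y : Lb × ℤ} {i : ℕ} (h : G^[i] x = y) : Gp.SameCycle x y :=
  ⟨i, by rw [zpow_natCast, Gp_iter]; exact h⟩

theorem same_of_Av {x y : Lb × ℤ} (h : Av x y) : Gp.SameCycle x y := by
  obtain ⟨k, hk, _⟩ := h
  exact same_of_iter hk

/-- the two starting points lie on different orbits -/
theorem not_same : ¬ Gp.SameCycle (main false 0) (main true 0) := by
  rintro ⟨i, hi⟩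
  rcases Int.le_total 0 i with h | h
  · obtain ⟨n, rfl⟩ := Int.eq_ofNat_of_zero_le h
    rw [zpow_natCast, Gp_iter] at hi
    rcases main_increase n _ _ _ _ hi with h0 | h0
    · subst h0
      have := (main_inj hi).1
      simp at this
    · omega
  · obtain ⟨n, hn⟩ := Int.eq_ofNat_of_zero_le (Int.neg_nonneg_of_nonpos h)
    have hi' : (Gp ^ (-i)) (main true 0) = main false 0 := by
      rw [← hi, ← Equiv.Perm.mul_apply, ← zpow_add]; simp
    rw [hn, zpow_natCast, Gp_iter] at hi'
    rcases main_increase n _ _ _ _ hi' with h0 | h0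
    · subst h0
      have := (main_inj hi').1
      simp at this
    · omega

/-- Any lane function obeying the switching rule describes the orbit. -/
theorem orbit_lane (lane : ℤ → Bool) (hl : ∀ q, lane (q + 1) = xor (lane q) (flip q)) (q : ℤ) :
    Gp.SameCycle (main (lane 0) 0) (main (lane q) q) := by
  induction q using Int.induction_on with
  | zero => exact Equiv.Perm.SameCycle.refl _ _
  | succ n ih =>
    refine ih.trans ?_
    rw [hl]
    exact same_of_Av (seg _ _)
  | pred n ih =>
    refine ih.trans ?_
    have h := same_of_Av (seg (lane (-(n : ℤ) - 1)) (-(n : ℤ) - 1))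
    rw [← hl, sub_add_cancel] at h
    exact h.symm

/-- the heavy states are on the orbit when the lane after `q` is `true` -/
theorem heavy_on (lane : ℤ → Bool) (hl : ∀ q, lane (q + 1) = xor (lane q) (flip q)) (q : ℤ)
    (hq : lane (q + 1) = true) (i : Fin 360) :
    Gp.SameCycle (main (lane 0) 0) (Sum.inr i, q) := by
  refine (orbit_lane lane hl q).trans ?_
  have h := seg1 (lane q) q
  rw [← hl, hq] at h
  refine (same_of_Av h).trans ((same_of_Av (Av.base' (exit_true q))).trans ?_)
  exact same_of_iter (heavy_iter q i.val i.isLt)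

end Pool.Agent.Helper894
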