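import Mathlib
import Pool.Agent.Helper894.Path

set_option autoImplicit false

namespace Pool.Agent.Helper894

def bb (n : ℕ) : ℕ := 17 ^ (4 ^ n)
def Lc (n : ℕ) : ℕ := 2 ^ (2 * n + 1) * 1105
def Mm (n : ℕ) : ℕ := bb n * Lc n

/-- `q` is outside of the switched zone of level `n` -/
def chi (n q : ℕ) : Prop := bb n < q % Mm n ∧ q % Mm n ≤ Mm n - bb n

/-- `q` is a switching position of level `n` -/
def edge (n q : ℕ) : Prop := q % Mm n = bb n ∨ q % Mm n = Mm n - bb n

instance (n q : ℕ) : Decidable (chi n q) := inferInstanceAs (Decidable (_ ∧ _))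
instance (n q : ℕ) : Decidable (edge n q) := inferInstanceAs (Decidable (_ ∨ _))

theorem bb_pos (n : ℕ) : 0 < bb n := by unfold bb; positivity

theorem lt_bb (n : ℕ) : 2 * n + 1 < bb n := by
  induction n with
  | zero => norm_num [bb]
  | succ n ih =>
    have h : bb (n + 1) = bb n ^ 4 := by unfold bb; rw [pow_succ, pow_mul]
    have h0 : 2 ≤ bb n := by omega
    have h1 : bb n ^ 4 = bb n * (bb n * (bb n * bb n)) := by ring
    have h2 : 2 * 2 ≤ bb n * bb n := Nat.mul_le_mul h0 h0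
    have h3 : 2 * (2 * 2) ≤ bb n * (bb n * bb n) := Nat.mul_le_mul h0 h2
    have h4 : bb n * 8 ≤ bb n * (bb n * (bb n * bb n)) := Nat.mul_le_mul_left _ (by omega)
    rw [h, h1]
    omega

theorem Lc_ge (n : ℕ) : 2210 ≤ Lc n := by
  unfold Lc
  have : 2 ^ 1 ≤ 2 ^ (2 * n + 1) := Nat.pow_le_pow_right (by norm_num) (by omega)
  omega

theorem Mm_ge (n : ℕ) : 2210 * bb n ≤ Mm n := by
  unfold Mm
  rw [mul_comm]
  exact Nat.mul_le_mul_left _ (Lc_ge n)

theorem Mm_pos (n : ℕ) : 0 < Mm n := by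
  have := Mm_ge n; have := bb_pos n; omega

/-- the change of `chi` -/
theorem chi_change (n q : ℕ) :
    ((if chi n (q + 1) then 1 else 0 : ZMod 2)) + (if chi n q then 1 else 0) =
      if edge n q then 1 else 0 := by
  have hM := Mm_ge n
  have hb := lt_bb n
  have hMpos := Mm_pos n
  have hr := Nat.mod_lt q hMpos
  have hstep : (q + 1) % Mm n = if q % Mm n = Mm n - 1 then 0 else q % Mm n + 1 := by
    rw [Nat.add_mod]
    have h1 : 1 % Mm n = 1 := Nat.mod_eq_of_lt (by omega)
    rw [h1]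
    split_ifs with h
    · rw [h, Nat.sub_add_cancel (by omega), Nat.mod_self]
    · exact Nat.mod_eq_of_lt (by omega)
  have key : edge n q ↔ ¬ (chi n (q + 1) ↔ chi n q) := by
    unfold chi edge
    rw [hstep]
    generalize q % Mm n = r at *
    split_ifs <;> omega
  have h2 : (1 + 1 : ZMod 2) = 0 := by decide
  by_cases h3 : chi n (q + 1) <;> by_cases h4 : chi n q
  · have h5 : ¬ edge n q := fun h => key.mp h (by simp [h3, h4])
    rw [if_pos h3, if_pos h4, if_neg h5]; exact h2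
  · have h5 : edge n q := key.mpr (by simp [h3, h4])
    rw [if_pos h3, if_neg h4, if_pos h5]; simp
  · have h5 : edge n q := key.mpr (by simp [h3, h4])
    rw [if_neg h3, if_pos h4, if_pos h5]; simp
  · have h5 : ¬ edge n q := fun h => key.mp h (by simp [h3, h4])
    rw [if_neg h3, if_neg h4, if_neg h5]; simp

theorem dvd_of_edge {n q : ℕ} (h : edge n q) :
    ∃ c : ℕ, q = bb n * c ∧ ¬ 17 ∣ c := by
  have hdm := Nat.div_add_mod q (Mm n)
  have hL : (17 : ℕ) ∣ Lc n := by unfold Lc; exact ⟨2 ^ (2 * n + 1) * 65, by ring⟩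
  rcases h with h | h
  · refine ⟨Lc n * (q / Mm n) + 1, ?_, ?_⟩
    · rw [h] at hdm
      generalize q / Mm n = t at *
      rw [← hdm]; unfold Mm; ring
    · intro hd
      have := (Nat.dvd_add_right (Dvd.dvd.mul_right hL _)).mp hd
      omega
  · refine ⟨Lc n * (q / Mm n) + (Lc n - 1), ?_, ?_⟩
    · rw [h] at hdm
      generalize q / Mm n = t at *
      rw [← hdm, mul_add, Nat.mul_sub, mul_one]
      show Mm n * _ + (Mm n - bb n) = _
      congr 1
      unfold Mm; ring
    · intro hd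
      have h1 := (Nat.dvd_add_right (Dvd.dvd.mul_right hL _)).mp hd
      have := Lc_ge n
      obtain ⟨x, hx⟩ := hL
      obtain ⟨y, hy⟩ := h1
      omega

theorem edge_unique {n n' q : ℕ} (h : edge n q) (h' : edge n' q) : n = n' := by
  have key : ∀ m m' : ℕ, edge m q → edge m' q → m ≤ m' := by
    intro m m' h h'
    by_contra hlt
    push Not at hlt
    obtain ⟨c, hc, hc'⟩ := dvd_of_edge h
    obtain ⟨d, hd, hd'⟩ := dvd_of_edge h'
    have hlt' : 4 ^ m' < 4 ^ m := Nat.pow_lt_pow_right (by norm_num) hlt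
    obtain ⟨j, hj⟩ := Nat.exists_eq_add_of_lt hlt'
    rw [hc] at hd
    unfold bb at hd
    rw [hj, show 4 ^ m' + j + 1 = 4 ^ m' + (j + 1) by ring, pow_add 17 (4 ^ m') (j + 1),
      mul_assoc] at hd
    have := Nat.eq_of_mul_eq_mul_left (by positivity) hd
    apply hd'
    rw [← this, pow_succ]
    exact ⟨17 ^ j * c, by ring⟩
  exact le_antisymm (key _ _ h h') (key _ _ h' h)

theorem edge_le {n q : ℕ} (h : edge n q) : bb n ≤ q := by
  have hM := Mm_ge n
  have := Nat.mod_le q (Mm n)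
  rcases h with h | h <;> omega

theorem Pp_nat (q : ℕ) : Pp (q : ℤ) ↔ ∃ n, 1 ≤ n ∧ q % Mm n = bb n := by
  constructor
  · rintro ⟨n, hn, t, ht⟩
    refine ⟨n, hn, ?_⟩
    have hM := Mm_ge n
    have hb := bb_pos n
    have e : (q : ℤ) = (bb n : ℤ) + (Mm n : ℤ) * t := by
      rw [ht]; unfold Mm Lc bb; push_cast; ring
    have e2 : (q : ℤ) % (Mm n : ℤ) = (bb n : ℤ) := by
      rw [e, Int.add_mul_emod_self_left]
      exact Int.emod_eq_of_lt (by positivity) (by exact_mod_cast (by omega))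
    exact_mod_cast e2
  · rintro ⟨n, hn, h⟩
    refine ⟨n, hn, ((q / Mm n : ℕ) : ℤ), ?_⟩
    have hdm := Nat.div_add_mod q (Mm n)
    rw [h] at hdm
    have : (q : ℤ) = (Mm n : ℤ) * ((q / Mm n : ℕ) : ℤ) + (bb n : ℤ) := by exact_mod_cast hdm.symm
    rw [this]
    unfold Mm Lc bb
    push_cast
    ring

theorem Pp_neg_nat (q : ℕ) : Pp (-(q : ℤ)) ↔ ∃ n, 1 ≤ n ∧ q % Mm n = Mm n - bb n := by
  constructor
  · rintro ⟨n, hn, t, ht⟩
    refine ⟨n, hn, ?_⟩
    have hM := Mm_ge n
    have hb := bb_pos n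
    have e : (q : ℤ) = ((Mm n : ℤ) - bb n) + (Mm n : ℤ) * (-t - 1) := by
      have : (q : ℤ) = -(-(q : ℤ)) := by ring
      rw [this, ht]; unfold Mm Lc bb; push_cast; ring
    have e2 : (q : ℤ) % (Mm n : ℤ) = (Mm n : ℤ) - bb n := by
      rw [e, Int.add_mul_emod_self_left]
      exact Int.emod_eq_of_lt (by omega) (by omega)
    omega
  · rintro ⟨n, hn, h⟩
    refine ⟨n, hn, -((q / Mm n : ℕ) : ℤ) - 1, ?_⟩
    have hdm := Nat.div_add_mod q (Mm n)
    have hM := Mm_ge n
    rw [h] at hdm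
    have : (q : ℤ) = (Mm n : ℤ) * ((q / Mm n : ℕ) : ℤ) + ((Mm n : ℤ) - (bb n : ℤ)) := by
      have h2 : ((Mm n - bb n : ℕ) : ℤ) = (Mm n : ℤ) - (bb n : ℤ) := by
        rw [Nat.cast_sub (by omega)]
      rw [← h2]
      exact_mod_cast hdm.symm
    rw [this]
    unfold Mm Lc bb
    push_cast
    ring

theorem flip_nat (q : ℕ) : flip (q : ℤ) = true ↔ ∃ n, 1 ≤ n ∧ edge n q := by
  classical
  have hx : ¬ (Pp (q : ℤ) ∧ Pp (-(q : ℤ))) := by
    rintro ⟨h1, h2⟩
    have h3 := Pp_mod h1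
    have h4 := Pp_mod h2
    omega
  have : flip (q : ℤ) = true ↔ (Pp (q : ℤ) ∨ Pp (-(q : ℤ))) := by
    unfold flip
    by_cases h1 : Pp (q : ℤ) <;> by_cases h2 : Pp (-(q : ℤ)) <;> simp [h1, h2]
    exact hx ⟨h1, h2⟩
  rw [this, Pp_nat, Pp_neg_nat]
  constructor
  · rintro (⟨n, hn, h⟩ | ⟨n, hn, h⟩)
    · exact ⟨n, hn, Or.inl h⟩
    · exact ⟨n, hn, Or.inr h⟩
  · rintro ⟨n, hn, h | h⟩
    · exact Or.inl ⟨n, hn, h⟩
    · exact Or.inr ⟨n, hn, h⟩

/-- lane number as an element of `ZMod 2` -/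
def laneZ (q : ℕ) : ZMod 2 := ∑ n ∈ Finset.Icc 1 q, if chi n q then 1 else 0

theorem not_chi_of_le {n q : ℕ} (h : q ≤ bb n) : ¬ chi n q := by
  rintro ⟨h1, _⟩
  have := Nat.mod_le q (Mm n)
  omega

theorem laneZ_succ (q : ℕ) : laneZ (q + 1) + laneZ q = if flip (q : ℤ) = true then 1 else 0 := by
  have h1 : laneZ q = ∑ n ∈ Finset.Icc 1 (q + 1), if chi n q then 1 else 0 := by
    unfold laneZ
    rw [Finset.sum_Icc_succ_top (by omega)]
    have : ¬ chi (q + 1) q := not_chi_of_le (by have := lt_bb (q + 1); omega)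
    rw [if_neg this, add_zero]
  rw [h1]
  unfold laneZ
  rw [← Finset.sum_add_distrib]
  rw [Finset.sum_congr rfl (fun n _ => chi_change n q)]
  by_cases hf : flip (q : ℤ) = true
  · rw [if_pos hf]
    obtain ⟨n, hn, he⟩ := (flip_nat q).mp hf
    rw [Finset.sum_eq_single n]
    · rw [if_pos he]
    · intro m _ hm
      rw [if_neg (fun h => hm (edge_unique h he))]
    · intro hnot
      exfalso
      apply hnot
      have := edge_le he
      have := lt_bb n
      simp only [Finset.mem_Icc]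
      omega
  · rw [if_neg hf]
    apply Finset.sum_eq_zero
    intro m hm
    rw [if_neg]
    intro he
    simp only [Finset.mem_Icc] at hm
    exact hf ((flip_nat q).mpr ⟨m, hm.1, he⟩)

def laneN (q : ℕ) : Bool := decide (laneZ q = 1)

theorem laneN_succ (q : ℕ) : laneN (q + 1) = xor (laneN q) (flip (q : ℤ)) := by
  have h := laneZ_succ q
  unfold laneN
  generalize laneZ (q + 1) = a at *
  generalize laneZ q = b at *
  cases hf : flip (q : ℤ)
  · rw [hf] at h
    revert h; revert a b; decide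
  · rw [hf] at h
    revert h; revert a b; decide

/-- the lane function on all integers -/
def lane (q : ℤ) : Bool := if 0 ≤ q then laneN q.toNat else laneN (1 - q).toNat

theorem flip_zero : flip 0 = false := by
  have h := (flip_nat 0).not.mpr (by
    rintro ⟨n, _, h⟩
    have h1 := edge_le h
    have := bb_pos n
    omega)
  simpa using h

theorem laneN_zero : laneN 0 = false := by simp [laneN, laneZ]

theorem laneN_one : laneN 1 = false := by
  have := laneN_succ 0
  rw [laneN_zero] at this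
  simp only [Nat.cast_zero, flip_zero, zero_add] at this
  simpa using this

theorem lane_zero : lane 0 = false := by simp [lane, laneN_zero]

theorem lane_nat (q : ℕ) : lane (q : ℤ) = laneN q := by simp [lane]

theorem lane_sub (q : ℕ) (hq : 1 ≤ q) : lane (1 - (q : ℤ)) = laneN q := by
  unfold lane
  by_cases h : (0 : ℤ) ≤ 1 - q
  · have : q = 1 := by omega
    subst this
    simp [laneN_zero, laneN_one]
  · rw [if_neg h]
    congr 1
    omega

theorem lane_step (q : ℤ) : lane (q + 1) = xor (lane q) (flip q) := by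
  rcases Int.le_total 0 q with h | h
  · obtain ⟨n, rfl⟩ := Int.eq_ofNat_of_zero_le h
    rw [lane_nat, show ((n : ℤ) + 1) = ((n + 1 : ℕ) : ℤ) by push_cast; ring, lane_nat]
    exact laneN_succ n
  · obtain ⟨m, hm⟩ := Int.eq_ofNat_of_zero_le (Int.neg_nonneg_of_nonpos h)
    have hq : q = -(m : ℤ) := by omega
    subst hq
    rcases Nat.eq_zero_or_pos m with rfl | hm0
    · simp only [Nat.cast_zero, neg_zero, zero_add]
      rw [flip_zero, lane_zero, show (1 : ℤ) = ((1 : ℕ) : ℤ) by norm_num, lane_nat, laneN_one]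
      rfl
    · rw [show -(m : ℤ) + 1 = 1 - (m : ℤ) by ring, lane_sub m hm0,
        show -(m : ℤ) = 1 - ((m + 1 : ℕ) : ℤ) by push_cast; ring, lane_sub (m + 1) (by omega),
        laneN_succ]
      have : flip (1 - ((m + 1 : ℕ) : ℤ)) = flip (m : ℤ) := by
        rw [← flip_neg]; congr 1; push_cast; ring
      rw [this]
      cases laneN m <;> cases flip (m : ℤ) <;> rfl

end Pool.Agent.Helper894
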