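import Mathlib
import Pool.Agent.Helper894.Lane

set_option autoImplicit false

namespace Pool.Agent.Helper894

open Finset

theorem card_not_chi (n Q : ℕ) :
    ((range (Q + 1)).filter (fun q => ¬ chi n q)).card ≤ (Q / Mm n + 1) * (2 * bb n) := by
  have hM := Mm_ge n
  have hb := bb_pos n
  have h1 : ((range (Q + 1)).filter (fun q => ¬ chi n q)).card ≤
      ((range (Q / Mm n + 1)) ×ˢ ((range (bb n + 1)) ∪ (Ioo (Mm n - bb n) (Mm n)))).card := by
    apply Finset.card_le_card_of_injOn (fun q => (q / Mm n, q % Mm n))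
    · intro q hq
      simp only [coe_filter, mem_range, Set.mem_ofPred_eq] at hq
      have hr := Nat.mod_lt q (Mm_pos n)
      have hle : q / Mm n ≤ Q / Mm n := Nat.div_le_div_right (by omega)
      simp only [coe_product, Set.mem_prod, mem_coe, mem_range, mem_union, mem_Ioo]
      refine ⟨by omega, ?_⟩
      by_contra hcon
      apply hq.2
      unfold chi
      omega
    · intro q _ q' _ h
      simp only [Prod.mk.injEq] at h
      rw [← Nat.div_add_mod q (Mm n), ← Nat.div_add_mod q' (Mm n), h.1, h.2]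
  refine h1.trans ?_
  rw [card_product, card_range]
  apply Nat.mul_le_mul_left
  refine (card_union_le _ _).trans ?_
  rw [card_range, Nat.card_Ioo]
  omega

theorem laneZ_good {k q : ℕ} (h1 : bb k < q) (h2 : q ≤ bb (k + 1))
    (h3 : ∀ n ∈ Icc 1 k, chi n q) : laneZ q = (k : ZMod 2) := by
  have hkq : k ≤ q := by have := lt_bb k; omega
  have e : laneZ q = ∑ n ∈ Icc 1 k, (1 : ZMod 2) := by
    unfold laneZ
    symm
    have hsub : Icc 1 k ⊆ Icc 1 q := Icc_subset_Icc_right hkq
    rw [← Finset.sum_subset hsub]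
    · apply Finset.sum_congr rfl
      intro n hn
      rw [if_pos (h3 n hn)]
    · intro n hn hn'
      rw [if_neg]
      apply not_chi_of_le
      refine h2.trans ?_
      simp only [mem_Icc] at hn hn'
      unfold bb
      apply Nat.pow_le_pow_right (by norm_num)
      apply Nat.pow_le_pow_right (by norm_num)
      omega
  rw [e]
  simp

/-- all but few positions up to `bb (k+1)` have the lane given by the parity of `k` -/
theorem card_bad (k : ℕ) (hk : 1 ≤ k) :
    50 * ((Icc 1 (bb (k + 1))).filter (fun q => ¬ laneZ q = (k : ZMod 2))).card ≤ bb (k + 1) := by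
  set Q := bb (k + 1) with hQ
  have hsub : (Icc 1 Q).filter (fun q => ¬ laneZ q = (k : ZMod 2)) ⊆
      Icc 1 (bb k) ∪ (Icc 1 k).biUnion (fun n => (range (Q + 1)).filter (fun q => ¬ chi n q)) := by
    intro q hq
    simp only [mem_filter, mem_Icc] at hq
    simp only [mem_union, mem_Icc, mem_biUnion, mem_filter, mem_range]
    by_contra hcon
    push Not at hcon
    apply hq.2
    apply laneZ_good
    · by_contra hle
      have := hcon.1 hq.1.1
      omega
    · exact hq.1.2
    · intro n hn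
      simp only [mem_Icc] at hn
      exact hcon.2 n hn (by omega)
  have h1 : ((Icc 1 Q).filter (fun q => ¬ laneZ q = (k : ZMod 2))).card ≤
      bb k + ∑ n ∈ Icc 1 k, (Q / Mm n + 1) * (2 * bb n) := by
    refine (card_le_card hsub).trans ((card_union_le _ _).trans ?_)
    rw [Nat.card_Icc]
    apply Nat.add_le_add (by omega)
    refine card_biUnion_le.trans ?_
    exact Finset.sum_le_sum fun n _ => card_not_chi n Q
  -- real estimate
  have hQpos : (0 : ℝ) < Q := by exact_mod_cast bb_pos (k + 1)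
  have hterm : ∀ n ∈ Icc 1 k, (((Q / Mm n + 1) * (2 * bb n) : ℕ) : ℝ) ≤
      (Q : ℝ) / 1105 * (1 / 4) ^ n + 2 * bb k := by
    intro n hn
    simp only [mem_Icc] at hn
    have hb : bb n ≤ bb k := by
      unfold bb
      apply Nat.pow_le_pow_right (by norm_num)
      apply Nat.pow_le_pow_right (by norm_num)
      omega
    have hbp : (0 : ℝ) < bb n := by exact_mod_cast bb_pos n
    have h2 : ((Q / Mm n : ℕ) : ℝ) ≤ (Q : ℝ) / (Mm n : ℝ) := Nat.cast_div_le
    have h3 : ((Mm n : ℕ) : ℝ) = bb n * (2 * 4 ^ n * 1105) := by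
      have e : (2 : ℝ) ^ (2 * n + 1) = 2 * 4 ^ n := by
        rw [pow_succ, pow_mul]; norm_num [mul_comm]
      unfold Mm Lc
      push_cast
      rw [e]
    have h4 : (Q : ℝ) / (Mm n : ℝ) * (2 * bb n) = (Q : ℝ) / 1105 * (1 / 4) ^ n := by
      rw [h3]
      rw [one_div, inv_pow]
      field_simp
    have hb' : (bb n : ℝ) ≤ bb k := by exact_mod_cast hb
    push_cast
    calc (((Q / Mm n : ℕ) : ℝ) + 1) * (2 * bb n)
        = ((Q / Mm n : ℕ) : ℝ) * (2 * bb n) + 2 * bb n := by ring
      _ ≤ (Q : ℝ) / (Mm n : ℝ) * (2 * bb n) + 2 * bb k := by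
          apply add_le_add
          · exact mul_le_mul_of_nonneg_right h2 (by positivity)
          · linarith
      _ = _ := by rw [h4]
  have hgeo : ∀ k : ℕ, ∑ n ∈ Icc 1 k, ((1 : ℝ) / 4) ^ n = (1 - (1 / 4) ^ k) / 3 := by
    intro k
    induction k with
    | zero => simp
    | succ k ih =>
      rw [Finset.sum_Icc_succ_top (by omega), ih, pow_succ]
      ring
  have h5 : (((Icc 1 Q).filter (fun q => ¬ laneZ q = (k : ZMod 2))).card : ℝ) ≤
      bb k + ((Q : ℝ) / 1105 * (1 / 3) + k * (2 * bb k)) := by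
    have h6 : (((Icc 1 Q).filter (fun q => ¬ laneZ q = (k : ZMod 2))).card : ℝ) ≤
        ((bb k + ∑ n ∈ Icc 1 k, (Q / Mm n + 1) * (2 * bb n) : ℕ) : ℝ) := by
      exact_mod_cast h1
    refine h6.trans ?_
    rw [Nat.cast_add, Nat.cast_sum]
    apply add_le_add le_rfl
    refine (Finset.sum_le_sum hterm).trans ?_
    rw [Finset.sum_add_distrib, ← Finset.mul_sum, hgeo, Finset.sum_const, Nat.card_Icc]
    apply add_le_add
    · apply mul_le_mul_of_nonneg_left _ (by positivity)
      have : (0 : ℝ) ≤ (1 / 4) ^ k := by positivity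
      linarith
    · rw [nsmul_eq_mul]; simp
  have h7 : (Q : ℝ) = (bb k : ℝ) ^ 4 := by
    rw [hQ]
    have : bb (k + 1) = bb k ^ 4 := by unfold bb; rw [pow_succ, pow_mul]
    rw [this]; push_cast; ring
  have h8 : (2 * (k : ℝ) + 1) ≤ bb k := by exact_mod_cast (lt_bb k).le
  have h9 : (17 ^ 4 : ℝ) ≤ bb k := by
    have : 17 ^ 4 ≤ bb k := by
      unfold bb
      apply Nat.pow_le_pow_right (by norm_num)
      calc 4 = 4 ^ 1 := by norm_num
        _ ≤ 4 ^ k := Nat.pow_le_pow_right (by norm_num) hk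
    exact_mod_cast this
  have h10 : (bb k : ℝ) + k * (2 * bb k) ≤ bb k * bb k := by nlinarith
  have h11 : (bb k : ℝ) * bb k * 10000 ≤ Q := by
    rw [h7]
    have : (10000 : ℝ) ≤ bb k * bb k := by nlinarith
    nlinarith [mul_pos (show (0 : ℝ) < bb k by linarith) (show (0 : ℝ) < bb k by linarith)]
  have h12 : (50 : ℝ) * (((Icc 1 Q).filter (fun q => ¬ laneZ q = (k : ZMod 2))).card : ℝ) ≤ Q := by
    nlinarith
  exact_mod_cast h12

theorem card_good (k : ℕ) (hk : 1 ≤ k) :
    49 * bb (k + 1) ≤ 50 * ((Icc 1 (bb (k + 1))).filter (fun q => laneZ q = (k : ZMod 2))).card := by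
  have h1 := card_bad k hk
  have h2 := Finset.card_filter_add_card_filter_not (s := Icc 1 (bb (k + 1)))
    (fun q => laneZ q = (k : ZMod 2))
  rw [Nat.card_Icc] at h2
  omega

end Pool.Agent.Helper894
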