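import Mathlib
import Pool.Agent.Helper894.Collatz

set_option autoImplicit false

namespace Pool.Agent.Helper894.Collatz

open Finset

/-- the number of odd terms is close to `k/2` -/
def Win (k x : ℕ) : Prop := 99 * k ≤ 200 * od k x ∧ 200 * od k x ≤ 101 * k

instance (k : ℕ) : DecidablePred (Win k) := fun x => by unfold Win; infer_instance

theorem win_period (k x c : ℕ) : Win k (x + 2 ^ k * c) ↔ Win k x := by
  unfold Win
  rw [(period k x c).2.1]

theorem upper_tail (k : ℕ) :
    (((range (2 ^ k)).filter (fun x => 101 * k < 200 * od k x)).card : ℝ) *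
      ((10001 / 10000 : ℝ) ^ 101) ^ k ≤ (1 + (10001 / 10000 : ℝ) ^ 200) ^ k := by
  rw [← sum_pow_od, ← nsmul_eq_mul, ← sum_const]
  refine (sum_le_sum (fun x hx => ?_)).trans
      (sum_le_sum_of_subset_of_nonneg (filter_subset (fun x => 101 * k < 200 * od k x) _)
        (fun x _ _ => by positivity))
  simp only [mem_filter] at hx
  rw [← pow_mul, ← pow_mul]
  exact pow_le_pow_right₀ (by norm_num) hx.2.le

theorem lower_tail (k : ℕ) :
    (((range (2 ^ k)).filter (fun x => 200 * od k x < 99 * k)).card : ℝ) *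
      ((10000 / 10001 : ℝ) ^ 99) ^ k ≤ (1 + (10000 / 10001 : ℝ) ^ 200) ^ k := by
  rw [← sum_pow_od, ← nsmul_eq_mul, ← sum_const]
  refine (sum_le_sum (fun x hx => ?_)).trans
      (sum_le_sum_of_subset_of_nonneg (filter_subset (fun x => 200 * od k x < 99 * k) _)
        (fun x _ _ => by positivity))
  simp only [mem_filter] at hx
  rw [← pow_mul, ← pow_mul]
  exact pow_le_pow_of_le_one (by norm_num) (by norm_num) hx.2.le

theorem win_card (k : ℕ) : (((range (2 ^ k)).filter (fun x => ¬ Win k x)).card : ℝ) ≤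
    2 * (2 * (99999999 / 100000000 : ℝ)) ^ k := by
  have h1 := upper_tail k
  have h2 := lower_tail k
  have hsub : (range (2 ^ k)).filter (fun x => ¬ Win k x) ⊆
      (range (2 ^ k)).filter (fun x => 101 * k < 200 * od k x) ∪
      (range (2 ^ k)).filter (fun x => 200 * od k x < 99 * k) := by
    intro x hx
    simp only [mem_filter, mem_union, Win] at hx ⊢
    rcases lt_or_ge (101 * k) (200 * od k x) with h | h
    · exact Or.inl ⟨hx.1, h⟩
    · refine Or.inr ⟨hx.1, ?_⟩
      by_contra hcon
      exact hx.2 ⟨by omega, h⟩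
  have h3 := (card_le_card hsub).trans (card_union_le _ _)
  have h3' : (((range (2 ^ k)).filter (fun x => ¬ Win k x)).card : ℝ) ≤
      ((range (2 ^ k)).filter (fun x => 101 * k < 200 * od k x)).card +
      ((range (2 ^ k)).filter (fun x => 200 * od k x < 99 * k)).card := by exact_mod_cast h3
  have b1 : (((range (2 ^ k)).filter (fun x => 101 * k < 200 * od k x)).card : ℝ) ≤
      (2 * (99999999 / 100000000 : ℝ)) ^ k := by
    have hpos : (0 : ℝ) < ((10001 / 10000 : ℝ) ^ 101) ^ k := by positivity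
    rw [← mul_le_mul_iff_left₀ hpos]
    refine h1.trans ?_
    rw [← mul_pow]
    exact pow_le_pow_left₀ (by positivity) (by norm_num) k
  have b2 : (((range (2 ^ k)).filter (fun x => 200 * od k x < 99 * k)).card : ℝ) ≤
      (2 * (99999999 / 100000000 : ℝ)) ^ k := by
    have hpos : (0 : ℝ) < ((10000 / 10001 : ℝ) ^ 99) ^ k := by positivity
    rw [← mul_le_mul_iff_left₀ hpos]
    refine h2.trans ?_
    rw [← mul_pow]
    exact pow_le_pow_left₀ (by positivity) (by norm_num) k
  linarith

/-- the number of `x < 2^k` outside the window is super-polynomially small -/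
theorem win_small (A : ℕ) : ∃ K0 : ℕ, ∀ k, K0 ≤ k →
    ((range (2 ^ k)).filter (fun x => ¬ Win k x)).card * k ^ A ≤ 2 ^ k := by
  have h := tendsto_pow_const_mul_const_pow_of_lt_one A (r := (99999999 / 100000000 : ℝ))
    (by norm_num) (by norm_num)
  have h2 := h.eventually (gt_mem_nhds (show (0 : ℝ) < 1 / 2 by norm_num))
  obtain ⟨K0, hK⟩ := Filter.eventually_atTop.1 h2
  refine ⟨K0, fun k hk => ?_⟩
  have h3 := hK k hk
  have h4 := win_card k
  have h5 : (((range (2 ^ k)).filter (fun x => ¬ Win k x)).card : ℝ) * (k : ℝ) ^ A ≤ 2 ^ k := by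
    calc (((range (2 ^ k)).filter (fun x => ¬ Win k x)).card : ℝ) * (k : ℝ) ^ A
        ≤ 2 * (2 * (99999999 / 100000000 : ℝ)) ^ k * (k : ℝ) ^ A :=
          mul_le_mul_of_nonneg_right h4 (by positivity)
      _ = 2 * 2 ^ k * ((k : ℝ) ^ A * (99999999 / 100000000 : ℝ) ^ k) := by rw [mul_pow]; ring
      _ ≤ 2 * 2 ^ k * (1 / 2) := by
          apply mul_le_mul_of_nonneg_left h3.le (by positivity)
      _ = 2 ^ k := by ring
  exact_mod_cast h5

end Pool.Agent.Helper894.Collatz
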