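import Mathlib
import Pool.Agent.Helper894.Block
import Pool.Agent.Helper894.Window

set_option autoImplicit false

namespace Pool.Agent.Helper894.Collatz

open Finset Classical

/-- the number of binary digits of `3^n` -/
noncomputable def kap (n : ℕ) : ℕ := Nat.clog 2 (3 ^ n)

theorem le_two_pow_kap (n : ℕ) : 3 ^ n ≤ 2 ^ kap n := Nat.le_pow_clog (by norm_num) _

theorem two_pow_kap_le (n : ℕ) : 2 ^ kap n ≤ 2 * 3 ^ n := by
  rcases n.eq_zero_or_pos with rfl | h
  · simp [kap]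
  · have h1 : 1 < 3 ^ n := Nat.one_lt_pow (by omega) (by norm_num)
    have h2 := Nat.pow_pred_clog_lt_self (b := 2) (by norm_num) h1
    have h3 : 0 < kap n := Nat.clog_pos (by norm_num) (by omega)
    have h4 : 2 ^ kap n = 2 * 2 ^ (kap n).pred := by
      rw [← pow_succ']
      congr 1
      exact (Nat.succ_pred_eq_of_pos h3).symm
    rw [h4]
    exact Nat.mul_le_mul_left _ h2.le

theorem kap_ge (n : ℕ) : 79 * n ≤ 50 * kap n := by
  have h1 : (2 : ℕ) ^ (79 * n) ≤ 2 ^ (50 * kap n) := by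
    calc (2 : ℕ) ^ (79 * n) = (2 ^ 79) ^ n := pow_mul _ _ _
      _ ≤ (3 ^ 50) ^ n := Nat.pow_le_pow_left (by norm_num) n
      _ = (3 ^ n) ^ 50 := by rw [← pow_mul, ← pow_mul, mul_comm]
      _ ≤ (2 ^ kap n) ^ 50 := Nat.pow_le_pow_left (le_two_pow_kap n) 50
      _ = 2 ^ (50 * kap n) := by rw [← pow_mul, mul_comm]
  exact (Nat.pow_le_pow_iff_right (by norm_num)).1 h1

theorem kap_ge' (n : ℕ) : n ≤ kap n := by have := kap_ge n; omega

/-- from `x` one can make at least `c k` odd steps and be at a point `> 2` -/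
def D (c : ℝ) (k x : ℕ) : Prop := ∃ K : ℕ, c * k ≤ od K x ∧ 2 < T^[K] x

/-- number of exceptions -/
noncomputable def cnt (c : ℝ) (k : ℕ) : ℕ := ((range (2 ^ k)).filter (fun x => ¬ D c k x)).card

/-- the exceptional set is super-polynomially small -/
def P (c : ℝ) : Prop := ∀ A : ℕ, ∃ K0 : ℕ, ∀ k, K0 ≤ k → cnt c k * k ^ A ≤ 2 ^ k

theorem P_zero : P 0 := by
  intro A
  have h := tendsto_pow_const_mul_const_pow_of_lt_one A (r := (1 / 2 : ℝ))
    (by norm_num) (by norm_num)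
  have h2 := h.eventually (gt_mem_nhds (show (0 : ℝ) < 1 / 3 by norm_num))
  obtain ⟨K0, hK⟩ := Filter.eventually_atTop.1 h2
  refine ⟨K0, fun k hk => ?_⟩
  have h3 := hK k hk
  have h4 : cnt 0 k ≤ 3 := by
    unfold cnt
    have : (range (2 ^ k)).filter (fun x => ¬ D 0 k x) ⊆ range 3 := by
      intro x hx
      simp only [mem_filter, mem_range] at hx ⊢
      by_contra hcon
      exact hx.2 ⟨0, by simp, by simp only [Function.iterate_zero, id]; omega⟩
    simpa using card_le_card this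
  have h5 : (cnt 0 k : ℝ) * (k : ℝ) ^ A ≤ 2 ^ k := by
    have h6 : (cnt 0 k : ℝ) ≤ 3 := by exact_mod_cast h4
    calc (cnt 0 k : ℝ) * (k : ℝ) ^ A ≤ 3 * (k : ℝ) ^ A :=
          mul_le_mul_of_nonneg_right h6 (by positivity)
      _ = 3 * 2 ^ k * ((k : ℝ) ^ A * (1 / 2) ^ k) := by
          rw [one_div, inv_pow]; field_simp
      _ ≤ 3 * 2 ^ k * (1 / 3) := mul_le_mul_of_nonneg_left h3.le (by positivity)
      _ = 2 ^ k := by ring
  exact_mod_cast h5

/-- a good member of the family -/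
def Good (c : ℝ) (j k t : ℕ) : Prop :=
  Win k (fam j t) ∧ D c (kap (od k (fam j t) + j)) (T^[k] (fam j t))

theorem three_pow_le {a j k : ℕ} (ha : 200 * a ≤ 101 * k) (hj : 25 * j ≤ 3 * k) :
    3 ^ (a + j) ≤ 2 ^ k := by
  have h1 : 8 * (a + j) ≤ 5 * k := by omega
  have h2 : (3 ^ (a + j)) ^ 5 ≤ (2 ^ k) ^ 5 := by
    calc ((3 : ℕ) ^ (a + j)) ^ 5 = (3 ^ 5) ^ (a + j) := by rw [← pow_mul, ← pow_mul, mul_comm]
      _ ≤ (2 ^ 8) ^ (a + j) := Nat.pow_le_pow_left (by norm_num) _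
      _ = 2 ^ (8 * (a + j)) := by rw [← pow_mul]
      _ ≤ 2 ^ (5 * k) := Nat.pow_le_pow_right (by norm_num) h1
      _ = (2 ^ k) ^ 5 := by rw [← pow_mul, mul_comm]
  exact (Nat.pow_le_pow_iff_left (by norm_num)).1 h2

theorem cnt_mono {c : ℝ} (n : ℕ) :
    ((range (3 ^ n)).filter (fun y => ¬ D c (kap n) y)).card ≤ cnt c (kap n) := by
  apply card_le_card
  apply filter_subset_filter
  exact range_subset_range.2 (le_two_pow_kap n)

/-- the contribution of a single value of the number of odd steps -/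
theorem card_term (c : ℝ) (j k C a B : ℕ) (hC : 1 ≤ C) (hj : 25 * j ≤ 3 * k)
    (ha : 99 * k ≤ 200 * a) (ha' : 200 * a ≤ 101 * k)
    (hP : cnt c (kap (a + j)) * (kap (a + j)) ^ B ≤ 2 ^ kap (a + j)) :
    ((range (2 ^ k)).filter (fun t => od k (fam j t) = a ∧ er k (fam j t) ≤ C * 2 ^ k ∧
      ¬ D c (kap (a + j)) (T^[k] (fam j t)))).card * k ^ B ≤ 3 ^ B * (4 * C * 2 ^ k) := by
  have h1 := card_block j k C a (fun y => ¬ D c (kap (a + j)) y)
  have h2 := cnt_mono (c := c) (a + j)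
  have h3 : k ≤ 3 * kap (a + j) := by
    have := kap_ge' (a + j); omega
  have h4 : k ^ B ≤ 3 ^ B * kap (a + j) ^ B := by
    rw [← mul_pow]; exact Nat.pow_le_pow_left h3 B
  have h5 : (C * 2 ^ k / 3 ^ (a + j) + 1) * 3 ^ (a + j) ≤ 2 * (C * 2 ^ k) := by
    have e1 : C * 2 ^ k / 3 ^ (a + j) * 3 ^ (a + j) ≤ C * 2 ^ k := Nat.div_mul_le_self _ _
    have e2 := three_pow_le ha' hj
    have e3 : 2 ^ k ≤ C * 2 ^ k := Nat.le_mul_of_pos_left _ hC
    rw [add_mul, one_mul]
    omega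
  calc _ ≤ ((C * 2 ^ k / 3 ^ (a + j) + 1) * cnt c (kap (a + j))) * (3 ^ B * kap (a + j) ^ B) :=
        Nat.mul_le_mul (h1.trans (Nat.mul_le_mul_left _ h2)) h4
    _ = 3 ^ B * ((C * 2 ^ k / 3 ^ (a + j) + 1) * (cnt c (kap (a + j)) * kap (a + j) ^ B)) := by ring
    _ ≤ 3 ^ B * ((C * 2 ^ k / 3 ^ (a + j) + 1) * (2 * 3 ^ (a + j))) := by
        apply Nat.mul_le_mul_left
        apply Nat.mul_le_mul_left
        exact hP.trans (two_pow_kap_le _)
    _ = 3 ^ B * (2 * ((C * 2 ^ k / 3 ^ (a + j) + 1) * 3 ^ (a + j))) := by ring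
    _ ≤ 3 ^ B * (2 * (2 * (C * 2 ^ k))) := by
        apply Nat.mul_le_mul_left
        apply Nat.mul_le_mul_left
        exact h5
    _ = 3 ^ B * (4 * C * 2 ^ k) := by ring

/-- the main counting estimate -/
theorem card_bad {c : ℝ} (hP : P c) (A : ℕ) : ∃ K0 : ℕ, ∀ k, K0 ≤ k → ∀ j, 25 * j ≤ 3 * k →
    4 * (((range (2 ^ k)).filter (fun t => ¬ Good c j k t)).card * k ^ A) ≤ 3 * 2 ^ k := by
  obtain ⟨K1, hK1⟩ := hP (2 * A + 4)
  obtain ⟨K2, hK2⟩ := win_small (A + 1)
  refine ⟨3 * K1 + K2 + 4 + 4 * (4 * 3 ^ (2 * A + 4) * 2), fun k hk j hj => ?_⟩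
  set B := 2 * A + 4 with hB
  set C := k ^ (A + 2) with hC
  have hkpos : 1 ≤ k := by omega
  have hC1 : 1 ≤ C := Nat.one_le_pow _ _ hkpos
  -- the three exceptional sets
  have hsub : (range (2 ^ k)).filter (fun t => ¬ Good c j k t) ⊆
      ((range (2 ^ k)).filter (fun t => ¬ Win k (fam j t)) ∪
      (range (2 ^ k)).filter (fun t => C * 2 ^ k < er k (fam j t))) ∪
      ((range (k + 1)).filter (fun a => 99 * k ≤ 200 * a ∧ 200 * a ≤ 101 * k)).biUnion
        (fun a => (range (2 ^ k)).filter (fun t => od k (fam j t) = a ∧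
          er k (fam j t) ≤ C * 2 ^ k ∧ ¬ D c (kap (a + j)) (T^[k] (fam j t)))) := by
    intro t ht
    simp only [mem_filter, mem_union, mem_biUnion, mem_range] at ht ⊢
    by_cases hW : Win k (fam j t)
    · rcases lt_or_ge (C * 2 ^ k) (er k (fam j t)) with he | he
      · exact Or.inl (Or.inr ⟨ht.1, he⟩)
      · refine Or.inr ⟨od k (fam j t), ⟨?_, hW.1, hW.2⟩, ht.1, rfl, he, fun hD => ht.2 ⟨hW, hD⟩⟩
        have := hW.2; omega
    · exact Or.inl (Or.inl ⟨ht.1, hW⟩)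
  have hcard := (card_le_card hsub).trans ((card_union_le _ _).trans
    (Nat.add_le_add_right (card_union_le _ _) _))
  -- first set
  have e1 : ((range (2 ^ k)).filter (fun t => ¬ Win k (fam j t))).card * k ^ (A + 1) ≤ 2 ^ k := by
    have h := card_fam j k (fun x => ¬ Win k x) (fun x c => not_congr (win_period k x c))
    have h2 := hK2 k (by omega)
    rw [h]
    exact h2
  have e1' : 4 * (((range (2 ^ k)).filter (fun t => ¬ Win k (fam j t))).card * k ^ A) ≤ 2 ^ k := by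
    refine le_trans ?_ e1
    rw [pow_succ, mul_comm (k ^ A) k, mul_left_comm]
    exact Nat.mul_le_mul_left _ (Nat.mul_le_mul_right _ (by omega))
  -- second set
  have e2 := card_er j k C
  have e2' : 4 * (((range (2 ^ k)).filter (fun t => C * 2 ^ k < er k (fam j t))).card * k ^ A) ≤
      2 ^ k := by
    refine Nat.le_of_mul_le_mul_left (c := k) ?_ hkpos
    refine le_trans ?_ e2
    rw [hC]
    have : k * (4 * (((range (2 ^ k)).filter
        (fun t => k ^ (A + 2) * 2 ^ k < er k (fam j t))).card * k ^ A)) * k =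
        4 * k ^ (A + 2) * ((range (2 ^ k)).filter
        (fun t => k ^ (A + 2) * 2 ^ k < er k (fam j t))).card := by
      rw [pow_add]; ring
    rw [← this]
    exact Nat.le_mul_of_pos_right _ hkpos
  -- third set
  have e3 : (((range (k + 1)).filter (fun a => 99 * k ≤ 200 * a ∧ 200 * a ≤ 101 * k)).biUnion
        (fun a => (range (2 ^ k)).filter (fun t => od k (fam j t) = a ∧
          er k (fam j t) ≤ C * 2 ^ k ∧ ¬ D c (kap (a + j)) (T^[k] (fam j t))))).card * k ^ B ≤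
      (k + 1) * (3 ^ B * (4 * C * 2 ^ k)) := by
    refine (Nat.mul_le_mul_right _ card_biUnion_le).trans ?_
    rw [sum_mul]
    refine (sum_le_sum (g := fun _ => 3 ^ B * (4 * C * 2 ^ k)) fun a ha => ?_).trans ?_
    · simp only [mem_filter, mem_range] at ha
      apply card_term c j k C a B hC1 hj ha.2.1 ha.2.2
      apply hK1
      have := kap_ge' (a + j)
      omega
    · rw [sum_const, smul_eq_mul]
      apply Nat.mul_le_mul_right
      exact (card_filter_le _ _).trans (by rw [card_range])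
  have e3' : 4 * ((((range (k + 1)).filter (fun a => 99 * k ≤ 200 * a ∧ 200 * a ≤ 101 * k)).biUnion
        (fun a => (range (2 ^ k)).filter (fun t => od k (fam j t) = a ∧
          er k (fam j t) ≤ C * 2 ^ k ∧ ¬ D c (kap (a + j)) (T^[k] (fam j t))))).card * k ^ A) ≤
      2 ^ k := by
    set S := (((range (k + 1)).filter (fun a => 99 * k ≤ 200 * a ∧ 200 * a ≤ 101 * k)).biUnion
        (fun a => (range (2 ^ k)).filter (fun t => od k (fam j t) = a ∧
          er k (fam j t) ≤ C * 2 ^ k ∧ ¬ D c (kap (a + j)) (T^[k] (fam j t))))).card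
    -- S * k^A * k^(A+4) ≤ (k+1) * 3^B*4*k^(A+2)*2^k
    have hpos : 0 < k ^ (A + 2) := by positivity
    have f1 : S * k ^ A * k ^ 2 ≤ (k + 1) * (3 ^ B * 4) * 2 ^ k := by
      refine Nat.le_of_mul_le_mul_left (c := k ^ (A + 2)) ?_ hpos
      calc k ^ (A + 2) * (S * k ^ A * k ^ 2) = S * k ^ B := by rw [hB]; ring
        _ ≤ (k + 1) * (3 ^ B * (4 * C * 2 ^ k)) := e3
        _ = k ^ (A + 2) * ((k + 1) * (3 ^ B * 4) * 2 ^ k) := by rw [hC]; ring
    have f2 : 4 * ((k + 1) * (3 ^ B * 4)) ≤ k ^ 2 := by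
      have g1 : 4 * ((k + 1) * (3 ^ B * 4)) ≤ 4 * ((k * 2) * (3 ^ B * 4)) := by
        apply Nat.mul_le_mul_left
        apply Nat.mul_le_mul_right
        omega
      refine g1.trans ?_
      have g2 : 4 * (k * 2 * (3 ^ B * 4)) = k * (4 * (4 * 3 ^ B * 2)) := by ring
      rw [g2, pow_two]
      exact Nat.mul_le_mul_left _ (by omega)
    refine Nat.le_of_mul_le_mul_left (c := k ^ 2) ?_ (by positivity)
    calc k ^ 2 * (4 * (S * k ^ A)) = 4 * (S * k ^ A * k ^ 2) := by ring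
      _ ≤ 4 * ((k + 1) * (3 ^ B * 4) * 2 ^ k) := Nat.mul_le_mul_left _ f1
      _ = (4 * ((k + 1) * (3 ^ B * 4))) * 2 ^ k := by ring
      _ ≤ k ^ 2 * 2 ^ k := Nat.mul_le_mul_right _ f2
  have := Nat.mul_le_mul_right (k ^ A) hcard
  rw [add_mul, add_mul] at this
  omega

theorem P_step {c : ℝ} (hc : 0 ≤ c) (hP : P c) : P (99 / 200 * (1 + 79 / 50 * c)) := by
  intro A
  obtain ⟨K0, hK⟩ := card_bad hP A
  refine ⟨K0, fun k hk => ?_⟩
  have h1 := hK k hk 0 (by omega)
  have hsub : (range (2 ^ k)).filter (fun x => ¬ D (99 / 200 * (1 + 79 / 50 * c)) k x) ⊆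
      (range (2 ^ k)).filter (fun t => ¬ Good c 0 k t) := by
    intro x hx
    simp only [mem_filter] at hx ⊢
    refine ⟨hx.1, fun hG => hx.2 ?_⟩
    obtain ⟨hW, K, hK1, hK2⟩ := hG
    rw [fam_zero] at hW hK1 hK2
    rw [add_zero] at hK1
    refine ⟨k + K, ?_, ?_⟩
    · rw [od_add]
      push_cast
      have a1 : (99 : ℝ) * k ≤ 200 * od k x := by exact_mod_cast hW.1
      have a2 : (79 : ℝ) * od k x ≤ 50 * kap (od k x) := by exact_mod_cast kap_ge (od k x)
      have a3 : c * (79 / 50 * od k x) ≤ c * kap (od k x) :=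
        mul_le_mul_of_nonneg_left (by linarith) hc
      have a4 : (1 + 79 / 50 * c) * (99 / 200 * k) ≤ (1 + 79 / 50 * c) * od k x :=
        mul_le_mul_of_nonneg_left (by linarith) (by positivity)
      linarith
    · rw [add_comm, Function.iterate_add_apply]
      exact hK2
  have h2 : cnt (99 / 200 * (1 + 79 / 50 * c)) k ≤ _ := card_le_card hsub
  have h3 := Nat.mul_le_mul_right (k ^ A) h2
  omega

theorem P_iter (r : ℕ) : 0 ≤ (fun c : ℝ => 99 / 200 * (1 + 79 / 50 * c))^[r] 0 ∧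
    P ((fun c : ℝ => 99 / 200 * (1 + 79 / 50 * c))^[r] 0) := by
  induction r with
  | zero => exact ⟨le_refl _, P_zero⟩
  | succ r ih =>
    rw [Function.iterate_succ_apply']
    exact ⟨by have := ih.1; positivity, P_step ih.1 ih.2⟩

theorem exists_P : ∃ c : ℝ, 22 / 10 ≤ c ∧ P c := by
  refine ⟨_, ?_, (P_iter 16).2⟩
  simp only [Function.iterate_succ, Function.iterate_zero, Function.comp, id]
  norm_num

end Pool.Agent.Helper894.Collatz
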