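import Mathlib
import Pool.Agent.Helper894.Long

set_option autoImplicit false

namespace Pool.Agent.Helper894.Collatz

open Finset Classical

/-- the first `j` steps from `2^j (t+1) - 1` are odd -/
theorem climb (j : ℕ) : ∀ c : ℕ, T^[j] (2 ^ j * (c + 1) - 1) = 3 ^ j * (c + 1) - 1 ∧
    od j (2 ^ j * (c + 1) - 1) = j := by
  have key : ∀ j e : ℕ, ∀ c : ℕ, T^[j] (2 ^ (j + e) * (c + 1) - 1) = 3 ^ j * 2 ^ e * (c + 1) - 1 ∧
      od j (2 ^ (j + e) * (c + 1) - 1) = j := by
    intro j
    induction j with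
    | zero => intro e c; simp [od]
    | succ j ih =>
      intro e c
      obtain ⟨h1, h2⟩ := ih (e + 1) c
      have e1 : j + 1 + e = j + (e + 1) := by ring
      rw [e1]
      have e2 : 3 ^ j * 2 ^ (e + 1) * (c + 1) = 2 * (3 ^ j * 2 ^ e * (c + 1)) := by ring
      have pos : 0 < 3 ^ j * 2 ^ e * (c + 1) := by positivity
      have hodd : (3 ^ j * 2 ^ (e + 1) * (c + 1) - 1) % 2 = 1 := by rw [e2]; omega
      rw [Function.iterate_succ_apply', od_succ, h1, h2, hodd]
      refine ⟨?_, rfl⟩
      have h3 := T_odd hodd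
      have e3 : 3 ^ (j + 1) * 2 ^ e * (c + 1) = 3 * (3 ^ j * 2 ^ e * (c + 1)) := by ring
      rw [e3]
      omega
  intro c
  simpa using key j 0 c

theorem iter_one (k : ℕ) : T^[k] 1 ≤ 2 := by
  have : ∀ k, T^[k] 1 = 1 ∨ T^[k] 1 = 2 := by
    intro k
    induction k with
    | zero => simp
    | succ k ih =>
      rw [Function.iterate_succ_apply']
      rcases ih with h | h <;> rw [h] <;> decide
  rcases this k with h | h <;> omega

theorem od_le_of_le {k l x : ℕ} (h : k ≤ l) : od k x ≤ od l x := by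
  obtain ⟨d, rfl⟩ := Nat.exists_eq_add_of_le h
  rw [od_add]; omega

/-- if a late point is `> 2` and many odd steps occurred, the total stopping time is large -/
theorem long_of_od {n K : ℕ} (hn : 0 < n) (hK : 2 < T^[K] n)
    (hA : Real.log n ≤ od K n * Real.log (4 / 3)) :
    ∀ k : ℕ, (k : ℝ) < ((1 / 2 : ℝ) * Real.log (4 / 3))⁻¹ * Real.log (n : ℝ) → T^[k] n ≠ 1 := by
  intro k hk h1
  rcases le_or_gt k K with h | h
  · obtain ⟨d, rfl⟩ := Nat.exists_eq_add_of_le h
    rw [add_comm, Function.iterate_add_apply, h1] at hK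
    have := iter_one d
    omega
  · have e1 := iter_eq k n
    rw [h1, mul_one] at e1
    have e2 : 3 ^ od K n * n ≤ 2 ^ k := by
      rw [e1]
      have : 3 ^ od K n * n ≤ 3 ^ od k n * n :=
        Nat.mul_le_mul_right _ (Nat.pow_le_pow_right (by norm_num) (od_le_of_le h.le))
      omega
    have e3 : ((3 : ℝ) ^ od K n * n) ≤ 2 ^ k := by exact_mod_cast e2
    have hn' : (0 : ℝ) < n := by exact_mod_cast hn
    have e4 := Real.log_le_log (by positivity) e3
    rw [Real.log_mul (by positivity) (by positivity), Real.log_pow, Real.log_pow] at e4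
    have hl : Real.log (4 / 3) = 2 * Real.log 2 - Real.log 3 := by
      rw [Real.log_div (by norm_num) (by norm_num)]
      have : (4 : ℝ) = 2 ^ 2 := by norm_num
      rw [this, Real.log_pow]; push_cast; ring
    have hlpos : 0 < Real.log (4 / 3) := Real.log_pos (by norm_num)
    have h3pos : 0 < Real.log 3 := Real.log_pos (by norm_num)
    have h2pos : 0 < Real.log 2 := Real.log_pos (by norm_num)
    -- k * (1/2 log(4/3)) < log n
    have e5 : (k : ℝ) * (1 / 2 * Real.log (4 / 3)) < Real.log n := by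
      have := mul_lt_mul_of_pos_right hk (show 0 < 1 / 2 * Real.log (4 / 3) by positivity)
      rwa [mul_comm _ (Real.log (n : ℝ)), mul_assoc, inv_mul_cancel₀ (by positivity), mul_one]
        at this
    -- multiply e4 by log(4/3)
    have e6 : (od K n * Real.log 3 + Real.log n) * Real.log (4 / 3) ≤
        (k * Real.log 2) * Real.log (4 / 3) := mul_le_mul_of_nonneg_right e4 hlpos.le
    have e7 : Real.log n * Real.log 3 ≤ od K n * Real.log (4 / 3) * Real.log 3 :=
      mul_le_mul_of_nonneg_right hA h3pos.le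
    have e8 : (k : ℝ) * (1 / 2 * Real.log (4 / 3)) * (2 * Real.log 2) < Real.log n * (2 * Real.log 2) :=
      mul_lt_mul_of_pos_right e5 (by positivity)
    rw [hl] at e6 e7 e8
    nlinarith

theorem main (N : ℕ) : ∃ n : ℕ, N < n ∧ 0 < n ∧
      ∀ k : ℕ, (k : ℝ) < ((1 / 2 : ℝ) * Real.log (4 / 3))⁻¹ * Real.log (n : ℝ) → T^[k] n ≠ 1 := by
  obtain ⟨c, hc, hP⟩ := exists_P
  obtain ⟨K0, hK0⟩ := card_bad hP 0
  obtain ⟨M, hM⟩ : ∃ M, M = K0 + N + 1 := ⟨_, rfl⟩
  have h1 := hK0 (25 * M) (by omega) (3 * M) (by omega)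
  rw [pow_zero, mul_one] at h1
  -- there is a good t
  have hex : ∃ t, t < 2 ^ (25 * M) ∧ Good c (3 * M) (25 * M) t := by
    by_contra hcon
    push Not at hcon
    have : (range (2 ^ (25 * M))).filter (fun t => ¬ Good c (3 * M) (25 * M) t) =
        range (2 ^ (25 * M)) := by
      apply filter_true_of_mem
      intro t ht
      exact hcon t (mem_range.1 ht)
    rw [this, card_range] at h1
    have : 0 < 2 ^ (25 * M) := by positivity
    omega
  obtain ⟨t, ht, hW, K, hK1, hK2⟩ := hex
  obtain ⟨c1, c2⟩ := climb (3 * M) t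
  set n := 2 ^ (3 * M) * (t + 1) - 1 with hn
  have hfam : T^[3 * M] n = fam (3 * M) t := c1
  have hbig : M < n := by
    have a1 : 2 ^ (3 * M) * 1 ≤ 2 ^ (3 * M) * (t + 1) :=
      Nat.mul_le_mul_left _ (Nat.succ_le_succ (Nat.zero_le t))
    have a2 : 3 * M < 2 ^ (3 * M) := Nat.lt_two_pow_self
    omega
  have hlt : n < 2 ^ (28 * M) := by
    have a1 : 2 ^ (3 * M) * (t + 1) ≤ 2 ^ (3 * M) * 2 ^ (25 * M) :=
      Nat.mul_le_mul_left _ (Nat.succ_le_of_lt ht)
    rw [← pow_add] at a1
    have a2 : 3 * M + 25 * M = 28 * M := by ring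
    rw [a2] at a1
    have : 0 < 2 ^ (3 * M) * (t + 1) := by positivity
    omega
  refine ⟨n, by omega, by omega, ?_⟩
  -- the late point
  have hT : T^[K + (25 * M + 3 * M)] n = T^[K] (T^[25 * M] (fam (3 * M) t)) := by
    rw [Function.iterate_add_apply, Function.iterate_add_apply, hfam]
  have hod : od (3 * M + (25 * M + K)) n =
      3 * M + (od (25 * M) (fam (3 * M) t) + od K (T^[25 * M] (fam (3 * M) t))) := by
    rw [od_add, c2, hfam, od_add]
  have hidx : K + (25 * M + 3 * M) = 3 * M + (25 * M + K) := by ring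
  rw [hidx] at hT
  apply long_of_od (K := 3 * M + (25 * M + K)) (by omega)
  · rw [hT]; exact hK2
  · -- the count
    set a := od (25 * M) (fam (3 * M) t) with ha
    set b := od K (T^[25 * M] (fam (3 * M) t)) with hb
    have g1 : (99 : ℝ) * (25 * M) ≤ 200 * a := by exact_mod_cast hW.1
    have g2 : (79 : ℝ) * (a + 3 * M) ≤ 50 * kap (a + 3 * M) := by
      exact_mod_cast kap_ge (a + 3 * M)
    have g3 : c * kap (a + 3 * M) ≤ b := hK1
    have g4 : (22 / 10 : ℝ) * kap (a + 3 * M) ≤ c * kap (a + 3 * M) :=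
      mul_le_mul_of_nonneg_right hc (by positivity)
    have g5 : (1148 : ℝ) * M ≤ 17 * (3 * M + (a + b)) := by
      have : (0 : ℝ) ≤ M := by positivity
      linarith
    have g6 : (1148 : ℝ) * M ≤ 17 * (od (3 * M + (25 * M + K)) n) := by
      rw [hod]; push_cast; linarith
    have g7 : 1148 * M ≤ 17 * (od (3 * M + (25 * M + K)) n) := by exact_mod_cast g6
    -- logs
    have l1 : Real.log n ≤ 28 * M * Real.log 2 := by
      have : (n : ℝ) ≤ 2 ^ (28 * M) := by exact_mod_cast hlt.le
      have h := Real.log_le_log (by exact_mod_cast (by omega : 0 < n)) this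
      rw [Real.log_pow] at h
      exact_mod_cast h
    have l2 : 17 * Real.log 2 ≤ 41 * Real.log (4 / 3) := by
      have : ((2 : ℝ) ^ 17) ≤ (4 / 3) ^ 41 := by norm_num
      have h := Real.log_le_log (by positivity) this
      rw [Real.log_pow, Real.log_pow] at h
      exact_mod_cast h
    have l3 : 0 < Real.log 2 := Real.log_pos (by norm_num)
    have l4 : 0 < Real.log (4 / 3) := Real.log_pos (by norm_num)
    have l5 : (1148 : ℝ) * M * Real.log (4 / 3) ≤
        17 * (od (3 * M + (25 * M + K)) n) * Real.log (4 / 3) :=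
      mul_le_mul_of_nonneg_right g6 l4.le
    have l6 : 28 * (M : ℝ) * (17 * Real.log 2) ≤ 28 * M * (41 * Real.log (4 / 3)) :=
      mul_le_mul_of_nonneg_left l2 (by positivity)
    linarith

end Pool.Agent.Helper894.Collatz
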